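import Pool.Agent.H68.OWN.Hop2

/-!
# Hops of every order: the weighted number of collisions

`D ((τ - T) / M) ^ k` and `D' ((τ - T') / M) ^ k` can be near for many integers `τ` near `T` if
`k ≥ 3`. With the weight `((|τ - T| + 1) / (2 M + 1)) ^ (k - 1)` the number is
`≤ 6 + 64 lam M ^ 2 (1 + log (2 M + 1)) / (m₀ |T - T'|)` for every `k ≥ 1` (`cnt_w`).
-/

set_option autoImplicit false

namespace Pool.HOPK

open Finset Real
open Pool.Agent.H49.Ent Pool.Agent.H32.Dense Pool.STK Pool.OWN68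

/-- Powers of numbers of the same sign. -/
theorem pow_sub_lb {a b : ℝ} (h : 0 ≤ a * b) {k : ℕ} (hk : 1 ≤ k) :
    |a - b| * |a| ^ (k - 1) ≤ |a ^ k - b ^ k| := by
  have key : ∀ x y : ℝ, 0 ≤ x → 0 ≤ y → |x - y| * |x| ^ (k - 1) ≤ |x ^ k - y ^ k| := by
    intro x y hx hy
    obtain ⟨m, rfl⟩ : ∃ m, k = m + 1 := ⟨k - 1, by omega⟩
    rw [Nat.add_sub_cancel, abs_of_nonneg hx]
    rcases le_total y x with hxy | hxy
    · have h1 : y ^ m ≤ x ^ m := pow_le_pow_left₀ hy hxy m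
      have h2 : y ^ (m + 1) ≤ x ^ m * y := by
        rw [pow_succ]
        exact mul_le_mul_of_nonneg_right h1 hy
      have h3 : y ^ (m + 1) ≤ x ^ (m + 1) := pow_le_pow_left₀ hy hxy _
      rw [abs_of_nonneg (sub_nonneg.mpr hxy), abs_of_nonneg (sub_nonneg.mpr h3)]
      have e : x ^ (m + 1) = x ^ m * x := pow_succ x m
      linarith
    · have h1 : x ^ m ≤ y ^ m := pow_le_pow_left₀ hx hxy m
      have h2 : x ^ m * y ≤ y ^ (m + 1) := by
        rw [pow_succ]
        exact mul_le_mul_of_nonneg_right h1 hy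
      have h3 : x ^ (m + 1) ≤ y ^ (m + 1) := pow_le_pow_left₀ hx hxy _
      rw [abs_of_nonpos (sub_nonpos.mpr hxy), abs_of_nonpos (sub_nonpos.mpr h3)]
      have e : x ^ (m + 1) = x ^ m * x := pow_succ x m
      linarith
  rcases le_total 0 a with ha | ha
  · rcases ha.eq_or_lt with h0 | h0
    · obtain ⟨m, rfl⟩ : ∃ m, k = m + 1 := ⟨k - 1, by omega⟩
      rw [← h0, Nat.add_sub_cancel, abs_zero]
      rcases Nat.eq_zero_or_pos m with hm | hm
      · subst hm
        simp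
      · rw [zero_pow (by omega), mul_zero]
        exact abs_nonneg _
    · have hb : 0 ≤ b := by
        by_contra hcon
        push Not at hcon
        nlinarith
      exact key a b ha hb
  · rcases ha.eq_or_lt with h0 | h0
    · obtain ⟨m, rfl⟩ : ∃ m, k = m + 1 := ⟨k - 1, by omega⟩
      rw [h0, Nat.add_sub_cancel, abs_zero]
      rcases Nat.eq_zero_or_pos m with hm | hm
      · subst hm
        simp
      · rw [zero_pow (by omega), mul_zero]
        exact abs_nonneg _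
    · have hb : b ≤ 0 := by
        by_contra hcon
        push Not at hcon
        nlinarith
      have h1 := key (-a) (-b) (by linarith) (by linarith)
      have e1 : -a - -b = -(a - b) := by ring
      have e2 : (-a) ^ k - (-b) ^ k = (-1) ^ k * (a ^ k - b ^ k) := by
        rw [neg_pow a, neg_pow b]
        ring
      rw [e1, abs_neg, abs_neg, e2, abs_mul, abs_pow, abs_neg, abs_one, one_pow, one_mul] at h1
      exact h1

/-- Two collisions on the same side of the two times. -/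
theorem pair_one {k : ℕ} (hk : 1 ≤ k) {M D D' lam m₀ T T' x y : ℝ} (hM : 0 < M) (hm₀ : 0 < m₀)
    (hlam : 0 ≤ lam) (hD : m₀ ≤ |D|) (hT' : |T'| ≤ M) (hy : |y| ≤ M)
    (s1 : 0 ≤ (x - T) * (y - T)) (s2 : 0 ≤ (x - T') * (y - T'))
    (c1 : |D * ((x - T) / M) ^ k - D' * ((x - T') / M) ^ k| ≤ lam)
    (c2 : |D * ((y - T) / M) ^ k - D' * ((y - T') / M) ^ k| ≤ lam)
    (hle : |x - T'| ≤ |y - T'|) :
    |x - y| * |x - T| ^ (k - 1) * (m₀ * |T - T'|) ≤ 4 * lam * M ^ (k + 1) := by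
  have hMk : 0 < M ^ k := by positivity
  have hr : 0 ≤ 4 * lam * M ^ (k + 1) := by positivity
  rcases (abs_nonneg (y - T')).eq_or_lt with hz | hz
  · have h1 : |x - T'| ≤ 0 := by rw [hz]; exact hle
    have h2 : x - T' = 0 := abs_eq_zero.mp (le_antisymm h1 (abs_nonneg _))
    have h3 : y - T' = 0 := abs_eq_zero.mp hz.symm
    have h4 : x - y = 0 := by linarith
    rw [h4, abs_zero, zero_mul, zero_mul]
    exact hr
  · have e1 : D * ((x - T) / M) ^ k - D' * ((x - T') / M) ^ k =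
        (D * (x - T) ^ k - D' * (x - T') ^ k) / M ^ k := by
      rw [div_pow, div_pow]
      ring
    have e2 : D * ((y - T) / M) ^ k - D' * ((y - T') / M) ^ k =
        (D * (y - T) ^ k - D' * (y - T') ^ k) / M ^ k := by
      rw [div_pow, div_pow]
      ring
    rw [e1, abs_div, abs_of_pos hMk, div_le_iff₀ hMk] at c1
    rw [e2, abs_div, abs_of_pos hMk, div_le_iff₀ hMk] at c2
    have e3 : D * (((x - T) * (y - T')) ^ k - ((y - T) * (x - T')) ^ k) =
        (D * (x - T) ^ k - D' * (x - T') ^ k) * (y - T') ^ k -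
          (D * (y - T) ^ k - D' * (y - T') ^ k) * (x - T') ^ k := by
      rw [mul_pow, mul_pow]
      ring
    have hv : |x - T'| ^ k ≤ |y - T'| ^ k := pow_le_pow_left₀ (abs_nonneg _) hle k
    have h1 : |D| * |((x - T) * (y - T')) ^ k - ((y - T) * (x - T')) ^ k| ≤
        2 * (lam * M ^ k) * |y - T'| ^ k := by
      rw [← abs_mul, e3]
      refine (abs_sub _ _).trans ?_
      rw [abs_mul, abs_mul, abs_pow, abs_pow]
      have g1 : |D * (x - T) ^ k - D' * (x - T') ^ k| * |y - T'| ^ k ≤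
          lam * M ^ k * |y - T'| ^ k := mul_le_mul_of_nonneg_right c1 (by positivity)
      have g2 : |D * (y - T) ^ k - D' * (y - T') ^ k| * |x - T'| ^ k ≤
          lam * M ^ k * |y - T'| ^ k := mul_le_mul c2 hv (by positivity) (by positivity)
      linarith
    have h2 := pow_sub_lb (a := (x - T) * (y - T')) (b := (y - T) * (x - T')) (by
      have : (x - T) * (y - T') * ((y - T) * (x - T')) =
          ((x - T) * (y - T)) * ((x - T') * (y - T')) := by ring
      rw [this]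
      exact mul_nonneg s1 s2) hk
    have e4 : (x - T) * (y - T') - (y - T) * (x - T') = (x - y) * (T - T') := by ring
    rw [e4, abs_mul, abs_mul, mul_pow] at h2
    have hyT : |y - T'| ≤ 2 * M := by
      refine (abs_sub _ _).trans ?_
      linarith
    have hvk : |y - T'| ^ k = |y - T'| ^ (k - 1) * |y - T'| := by
      rw [← pow_succ]
      congr 1
      omega
    have h3 : m₀ * (|x - y| * |T - T'| * (|x - T| ^ (k - 1) * |y - T'| ^ (k - 1))) ≤
        2 * (lam * M ^ k) * |y - T'| ^ k := by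
      refine le_trans ?_ h1
      exact mul_le_mul hD h2 (by positivity) (abs_nonneg _)
    have hvp : 0 < |y - T'| ^ (k - 1) := pow_pos hz _
    have h4 : (|x - y| * |x - T| ^ (k - 1) * (m₀ * |T - T'|)) * |y - T'| ^ (k - 1) ≤
        (4 * lam * M ^ (k + 1)) * |y - T'| ^ (k - 1) := by
      calc (|x - y| * |x - T| ^ (k - 1) * (m₀ * |T - T'|)) * |y - T'| ^ (k - 1) =
          m₀ * (|x - y| * |T - T'| * (|x - T| ^ (k - 1) * |y - T'| ^ (k - 1))) := by ring
        _ ≤ 2 * (lam * M ^ k) * |y - T'| ^ k := h3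
        _ = 2 * (lam * M ^ k) * (|y - T'| ^ (k - 1) * |y - T'|) := by rw [hvk]
        _ ≤ 2 * (lam * M ^ k) * (|y - T'| ^ (k - 1) * (2 * M)) := by gcongr
        _ = (4 * lam * M ^ (k + 1)) * |y - T'| ^ (k - 1) := by rw [pow_succ M k]; ring
    exact le_of_mul_le_mul_right h4 hvp

/-- Two collisions on the same side of the two times, symmetric form. -/
theorem pair_two {k : ℕ} (hk : 1 ≤ k) {M D D' lam m₀ T T' x y : ℝ} (hM : 0 < M) (hm₀ : 0 < m₀)
    (hlam : 0 ≤ lam) (hD : m₀ ≤ |D|) (hT' : |T'| ≤ M) (hx : |x| ≤ M) (hy : |y| ≤ M)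
    (s1 : 0 ≤ (x - T) * (y - T)) (s2 : 0 ≤ (x - T') * (y - T'))
    (c1 : |D * ((x - T) / M) ^ k - D' * ((x - T') / M) ^ k| ≤ lam)
    (c2 : |D * ((y - T) / M) ^ k - D' * ((y - T') / M) ^ k| ≤ lam)
    (hxy : |x - T| ≤ |y - T|) :
    |x - y| * |x - T| ^ (k - 1) * (m₀ * |T - T'|) ≤ 4 * lam * M ^ (k + 1) := by
  rcases le_total |x - T'| |y - T'| with h | h
  · exact pair_one hk hM hm₀ hlam hD hT' hy s1 s2 c1 c2 h
  · have h1 := pair_one (x := y) (y := x) hk hM hm₀ hlam hD hT' hx (by linarith) (by linarith)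
      c2 c1 h
    refine le_trans ?_ h1
    rw [abs_sub_comm y x]
    gcongr

/-- The weight. -/
noncomputable def wt (k M : ℕ) (T x : ℤ) : ℝ := ((|(x : ℝ) - T| + 1) / (2 * M + 1)) ^ (k - 1)

theorem wt_pos (k M : ℕ) (T x : ℤ) : 0 < wt k M T x := by
  unfold wt
  positivity

theorem wt_le_one {k M : ℕ} {T x : ℤ} (hT : |T| ≤ (M : ℤ)) (hx : |x| ≤ (M : ℤ)) :
    wt k M T x ≤ 1 := by
  unfold wt
  refine pow_le_one₀ (by positivity) ?_
  rw [div_le_one (by positivity)]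
  have h1 : |(T : ℝ)| ≤ M := by exact_mod_cast hT
  have h2 : |(x : ℝ)| ≤ M := by exact_mod_cast hx
  have h3 := abs_sub (x : ℝ) T
  linarith

/-- One piece. -/
theorem piece {k M : ℕ} (hk : 1 ≤ k) (hM : 1 ≤ M) {D D' lam m₀ : ℝ} (hm₀ : 0 < m₀)
    (hlam : 0 ≤ lam) (hD : m₀ ≤ |D|) {T T' : ℤ} (hT : |T| ≤ (M : ℤ)) (hT' : |T'| ≤ (M : ℤ))
    (hne : T ≠ T') (P : Finset ℤ) (hP : ∀ n ∈ P, |n| ≤ (M : ℤ) ∧ n ≠ T ∧
      |D * (((n : ℝ) - T) / M) ^ k - D' * (((n : ℝ) - T') / M) ^ k| ≤ lam)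
    (hs : ∀ n ∈ P, ∀ n' ∈ P, (0 : ℝ) ≤ ((n : ℝ) - T) * (n' - T) ∧
      (0 : ℝ) ≤ ((n : ℝ) - T') * (n' - T')) :
    ∑ n ∈ P, wt k M T n ≤
      1 + 16 * lam * M ^ 2 * (1 + Real.log (2 * M + 1)) / (m₀ * |(T : ℝ) - T'|) := by
  have hMr : (1 : ℝ) ≤ M := by exact_mod_cast hM
  have hM0 : (0 : ℝ) < M := by linarith
  have hd : (0 : ℝ) < |(T : ℝ) - T'| := abs_pos.mpr (sub_ne_zero.mpr (by exact_mod_cast hne))
  have hmd : 0 < m₀ * |(T : ℝ) - T'| := mul_pos hm₀ hd
  have hlog : 0 ≤ Real.log (2 * M + 1) := Real.log_nonneg (by linarith)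
  obtain ⟨Lg, hLg⟩ : ∃ Lg : ℝ, Lg = 1 + Real.log (2 * M + 1) := ⟨_, rfl⟩
  have hLg0 : 0 < Lg := by rw [hLg]; linarith
  rw [← hLg]
  have hb : 0 ≤ 16 * lam * M ^ 2 * Lg / (m₀ * |(T : ℝ) - T'|) := by positivity
  rcases P.eq_empty_or_nonempty with h | h
  · rw [h, Finset.sum_empty]
    linarith
  obtain ⟨z, hz, hmax⟩ := Finset.exists_max_image P (fun n : ℤ => |(n : ℝ) - T|) h
  have hT'r : |(T' : ℝ)| ≤ M := by exact_mod_cast hT'
  have h1 : ∀ n ∈ P.erase z, wt k M T n ≤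
      8 * lam * M ^ 2 / (m₀ * |(T : ℝ) - T'|) * (1 / (1 + |(n : ℝ) - z|)) := by
    intro n hn
    obtain ⟨hnz, hnP⟩ := Finset.mem_erase.mp hn
    obtain ⟨n1, n2, n3⟩ := hP n hnP
    obtain ⟨z1, -, z3⟩ := hP z hz
    obtain ⟨s1, s2⟩ := hs n hnP z hz
    have n1' : |(n : ℝ)| ≤ M := by exact_mod_cast n1
    have z1' : |(z : ℝ)| ≤ M := by exact_mod_cast z1
    have g1 := pair_two (x := (n : ℝ)) (y := (z : ℝ)) hk hM0 hm₀ hlam hD hT'r n1' z1' s1 s2 n3 z3
      (hmax n hnP)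
    have g2 : (1 : ℝ) ≤ |(n : ℝ) - T| := by
      have : 1 ≤ |n - T| := Int.one_le_abs (sub_ne_zero.mpr n2)
      exact_mod_cast this
    have g3 : (1 : ℝ) ≤ |(n : ℝ) - z| := by
      have : 1 ≤ |n - z| := Int.one_le_abs (sub_ne_zero.mpr hnz)
      exact_mod_cast this
    have g4 : wt k M T n ≤ (|(n : ℝ) - T| / M) ^ (k - 1) := by
      unfold wt
      refine pow_le_pow_left₀ (by positivity) ?_ _
      rw [div_le_div_iff₀ (by positivity) hM0]
      nlinarith
    refine g4.trans ?_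
    rw [div_pow]
    have hMk : 0 < (M : ℝ) ^ (k - 1) := by positivity
    have e1 : (M : ℝ) ^ (k + 1) = M ^ 2 * M ^ (k - 1) := by
      rw [← pow_add]
      congr 1
      omega
    rw [e1] at g1
    rw [mul_one_div, div_div, div_le_div_iff₀ hMk (by positivity)]
    have g5 : 1 + |(n : ℝ) - z| ≤ 2 * |(n : ℝ) - z| := by linarith
    calc |(n : ℝ) - T| ^ (k - 1) * (m₀ * |(T : ℝ) - T'| * (1 + |(n : ℝ) - z|)) ≤
        |(n : ℝ) - T| ^ (k - 1) * (m₀ * |(T : ℝ) - T'| * (2 * |(n : ℝ) - z|)) := by gcongr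
      _ = 2 * (|(n : ℝ) - z| * |(n : ℝ) - T| ^ (k - 1) * (m₀ * |(T : ℝ) - T'|)) := by ring
      _ ≤ 2 * (4 * lam * (M ^ 2 * M ^ (k - 1))) := by gcongr
      _ = 8 * lam * M ^ 2 * M ^ (k - 1) := by ring
  rw [← Finset.add_sum_erase _ _ hz]
  have h2 : wt k M T z ≤ 1 := wt_le_one hT (hP z hz).1
  have h3 : ∑ n ∈ P.erase z, (1 : ℝ) / (1 + |(n : ℝ) - z|) ≤ 2 * Lg := by
    rw [hLg]
    refine le_trans ?_ (sum_rec M (z : ℝ))
    refine Finset.sum_le_sum_of_subset_of_nonneg (fun n hn => ?_) fun n _ _ => by positivity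
    have := (hP n (Finset.mem_of_mem_erase hn)).1
    exact Finset.mem_Icc.mpr (abs_le.mp this)
  have h4 := Finset.sum_le_sum h1
  rw [← Finset.mul_sum] at h4
  have h5 : 8 * lam * M ^ 2 / (m₀ * |(T : ℝ) - T'|) *
      ∑ n ∈ P.erase z, (1 : ℝ) / (1 + |(n : ℝ) - z|) ≤
      8 * lam * M ^ 2 / (m₀ * |(T : ℝ) - T'|) * (2 * Lg) := by gcongr
  have e2 : 8 * lam * M ^ 2 / (m₀ * |(T : ℝ) - T'|) * (2 * Lg) =
      16 * lam * M ^ 2 * Lg / (m₀ * |(T : ℝ) - T'|) := by ring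
  linarith

/-- **The weighted number of collisions.** -/
theorem cnt_w {k M : ℕ} (hk : 1 ≤ k) (hM : 1 ≤ M) {D D' lam m₀ : ℝ} (hm₀ : 0 < m₀)
    (hlam : 0 ≤ lam) (hD : m₀ ≤ |D|) {T T' : ℤ} (hT : |T| ≤ (M : ℤ)) (hT' : |T'| ≤ (M : ℤ))
    (hne : T ≠ T') (F : Finset ℤ) (hF : ∀ n ∈ F, |n| ≤ (M : ℤ) ∧
      |D * (((n : ℝ) - T) / M) ^ k - D' * (((n : ℝ) - T') / M) ^ k| ≤ lam) :
    ∑ n ∈ F, wt k M T n ≤
      6 + 64 * lam * M ^ 2 * (1 + Real.log (2 * M + 1)) / (m₀ * |(T : ℝ) - T'|) := by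
  classical
  set B : ℝ := 16 * lam * M ^ 2 * (1 + Real.log (2 * M + 1)) / (m₀ * |(T : ℝ) - T'|) with hB
  have e0 : 64 * lam * M ^ 2 * (1 + Real.log (2 * M + 1)) / (m₀ * |(T : ℝ) - T'|) = 4 * B := by
    rw [hB]
    ring
  rw [e0]
  -- the points at the two times
  have hpt : ∀ S : ℤ, ∑ n ∈ F.filter (fun n => n = S), wt k M T n ≤ 1 := by
    intro S
    by_cases hS : S ∈ F
    · rw [Finset.filter_eq' F S, if_pos hS, Finset.sum_singleton]
      exact wt_le_one hT (hF S hS).1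
    · rw [Finset.filter_eq' F S, if_neg hS, Finset.sum_empty]
      exact zero_le_one
  -- the classes
  have hcl : ∀ a b : Bool, ∑ n ∈ F.filter (fun n => n ≠ T ∧ n ≠ T' ∧ decide (n < T) = a ∧
      decide (n < T') = b), wt k M T n ≤ 1 + B := by
    intro a b
    refine piece (D' := D') hk hM hm₀ hlam hD hT hT' hne _ (fun n hn => ?_) fun n hn n' hn' => ?_
    · obtain ⟨h1, h2, h3, -⟩ := Finset.mem_filter.mp hn
      exact ⟨(hF n h1).1, h2, (hF n h1).2⟩
    · obtain ⟨-, h1, h2, h3, h4⟩ := Finset.mem_filter.mp hn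
      obtain ⟨-, g1, g2, g3, g4⟩ := Finset.mem_filter.mp hn'
      have q : ∀ S : ℤ, ∀ c : Bool, decide (n < S) = c → decide (n' < S) = c →
          (0 : ℝ) ≤ ((n : ℝ) - S) * (n' - S) := by
        intro S c hc hc'
        cases c
        · have i1 : S ≤ n := not_lt.mp (of_decide_eq_false hc)
          have i2 : S ≤ n' := not_lt.mp (of_decide_eq_false hc')
          have i1' : (S : ℝ) ≤ n := by exact_mod_cast i1
          have i2' : (S : ℝ) ≤ n' := by exact_mod_cast i2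
          exact mul_nonneg (by linarith) (by linarith)
        · have i1 : n < S := of_decide_eq_true hc
          have i2 : n' < S := of_decide_eq_true hc'
          have i1' : (n : ℝ) < S := by exact_mod_cast i1
          have i2' : (n' : ℝ) < S := by exact_mod_cast i2
          exact mul_nonneg_of_nonpos_of_nonpos (by linarith) (by linarith)
      exact ⟨q T a h3 g3, q T' b h4 g4⟩
  have hsub : ∑ n ∈ F, wt k M T n ≤ ∑ n ∈ F.filter (fun n => n = T), wt k M T n +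
      ∑ n ∈ F.filter (fun n => n = T'), wt k M T n +
      ∑ a : Bool, ∑ b : Bool, ∑ n ∈ F.filter (fun n => n ≠ T ∧ n ≠ T' ∧ decide (n < T) = a ∧
        decide (n < T') = b), wt k M T n := by
    have e1 : ∀ (p : ℤ → Prop) [DecidablePred p], ∑ n ∈ F.filter p, wt k M T n =
        ∑ n ∈ F, if p n then wt k M T n else 0 := fun p _ => Finset.sum_filter _ _
    simp only [e1, ← Finset.sum_add_distrib, Fintype.sum_bool]
    refine Finset.sum_le_sum fun n _ => ?_
    have hw := (wt_pos k M T n).le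
    by_cases c1 : n = T
    · rw [if_pos c1]
      have : ∀ (p : Prop) [Decidable p], (0 : ℝ) ≤ if p then wt k M T n else 0 := by
        intro p _
        split_ifs
        exacts [hw, le_rfl]
      have t1 := this (n = T')
      have t2 := this (n ≠ T ∧ n ≠ T' ∧ decide (n < T) = true ∧ decide (n < T') = true)
      have t3 := this (n ≠ T ∧ n ≠ T' ∧ decide (n < T) = true ∧ decide (n < T') = false)
      have t4 := this (n ≠ T ∧ n ≠ T' ∧ decide (n < T) = false ∧ decide (n < T') = true)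
      have t5 := this (n ≠ T ∧ n ≠ T' ∧ decide (n < T) = false ∧ decide (n < T') = false)
      linarith
    · by_cases c2 : n = T'
      · rw [if_neg c1, if_pos c2]
        have : ∀ (p : Prop) [Decidable p], (0 : ℝ) ≤ if p then wt k M T n else 0 := by
          intro p _
          split_ifs
          exacts [hw, le_rfl]
        have t2 := this (n ≠ T ∧ n ≠ T' ∧ decide (n < T) = true ∧ decide (n < T') = true)
        have t3 := this (n ≠ T ∧ n ≠ T' ∧ decide (n < T) = true ∧ decide (n < T') = false)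
        have t4 := this (n ≠ T ∧ n ≠ T' ∧ decide (n < T) = false ∧ decide (n < T') = true)
        have t5 := this (n ≠ T ∧ n ≠ T' ∧ decide (n < T) = false ∧ decide (n < T') = false)
        linarith
      · rw [if_neg c1, if_neg c2]
        by_cases c3 : n < T <;> by_cases c4 : n < T' <;> simp [c1, c2, c3, c4]
  refine hsub.trans ?_
  simp only [Fintype.sum_bool]
  have t1 := hpt T
  have t2 := hpt T'
  have t3 := hcl true true
  have t4 := hcl true false
  have t5 := hcl false true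
  have t6 := hcl false false
  linarith

/-- The weighted number of collisions, as a function of the two times. -/
noncomputable def hck (M : ℕ) (lam m₀ : ℝ) (T T' : ℤ) : ℝ :=
  if T = T' then 2 * M + 1 else
    6 + 64 * lam * M ^ 2 * (1 + Real.log (2 * M + 1)) / (m₀ * |(T : ℝ) - T'|)

theorem hck_pos (M : ℕ) {lam m₀ : ℝ} (hm₀ : 0 < m₀) (hlam : 0 ≤ lam) (T T' : ℤ) :
    0 < hck M lam m₀ T T' := by
  have hlog : 0 ≤ Real.log (2 * M + 1) := Real.log_nonneg (by
    have : (0 : ℝ) ≤ M := Nat.cast_nonneg M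
    linarith)
  unfold hck
  split_ifs with h
  · positivity
  · positivity

/-- The sum over one of the times. -/
theorem sum_hck {M : ℕ} {lam m₀ : ℝ} (hm₀ : 0 < m₀) (hmM : m₀ ≤ M) (hlam : 0 ≤ lam) (T' : ℤ) :
    ∑ T ∈ Finset.Icc (-(M : ℤ)) M, hck M lam m₀ T T' ≤
      (2 * (M : ℝ) + 1) * ((2 * M + 1) * ((7 + 64 * lam) * (1 + Real.log (2 * M + 1)) ^ 2 / m₀)) := by
  obtain ⟨Lg, hLg⟩ : ∃ Lg : ℝ, Lg = 1 + Real.log (2 * M + 1) := ⟨_, rfl⟩
  have hM0 : (0 : ℝ) < M := by linarith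
  have hlog : 0 ≤ Real.log (2 * M + 1) := Real.log_nonneg (by linarith)
  have hLg1 : 1 ≤ Lg := by rw [hLg]; linarith
  have hLg0 : 0 < Lg := by linarith
  have h1 : ∀ T ∈ Finset.Icc (-(M : ℤ)) M, hck M lam m₀ T T' ≤
      (if T = T' then (2 * (M : ℝ) + 1) else 0) + 6 +
        128 * lam * M ^ 2 * Lg / m₀ * (1 / (1 + |(T : ℝ) - T'|)) := by
    intro T _
    unfold hck
    rw [← hLg]
    have hn : 0 ≤ 128 * lam * M ^ 2 * Lg / m₀ * (1 / (1 + |(T : ℝ) - T'|)) := by positivity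
    split_ifs with h
    · linarith
    · have hd : (1 : ℝ) ≤ |(T : ℝ) - T'| := by
        have : 1 ≤ |T - T'| := Int.one_le_abs (sub_ne_zero.mpr h)
        exact_mod_cast this
      have h2 : 64 * lam * M ^ 2 * Lg / (m₀ * |(T : ℝ) - T'|) ≤
          128 * lam * M ^ 2 * Lg / m₀ * (1 / (1 + |(T : ℝ) - T'|)) := by
        rw [mul_one_div, div_div, div_le_div_iff₀ (by positivity) (by positivity)]
        have h3 : m₀ * (1 + |(T : ℝ) - T'|) ≤ 2 * (m₀ * |(T : ℝ) - T'|) := by nlinarith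
        have h4 : 0 ≤ 64 * lam * M ^ 2 * Lg := by positivity
        nlinarith [mul_le_mul_of_nonneg_left h3 h4]
      linarith
  refine (Finset.sum_le_sum h1).trans ?_
  rw [← hLg, Finset.sum_add_distrib, Finset.sum_add_distrib, ← Finset.mul_sum, Finset.sum_const,
    card_I, nsmul_eq_mul]
  have h5 := sum_rec M (T' : ℝ)
  rw [← hLg] at h5
  have h6 : ∑ T ∈ Finset.Icc (-(M : ℤ)) M, (if T = T' then (2 * (M : ℝ) + 1) else 0) ≤
      2 * (M : ℝ) + 1 := by
    rw [Finset.sum_ite_eq']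
    split_ifs
    · exact le_rfl
    · positivity
  have h7 : 128 * lam * M ^ 2 * Lg / m₀ * ∑ T ∈ Finset.Icc (-(M : ℤ)) M, 1 / (1 + |(T : ℝ) - T'|) ≤
      128 * lam * M ^ 2 * Lg / m₀ * (2 * Lg) := by
    gcongr
  have hL2 : 1 ≤ Lg ^ 2 := one_le_pow₀ hLg1
  have h8 : 7 * (2 * (M : ℝ) + 1) ≤ (2 * (M : ℝ) + 1) * ((2 * M + 1) * (7 * Lg ^ 2 / m₀)) := by
    rw [mul_comm 7]
    refine mul_le_mul_of_nonneg_left ?_ (by positivity)
    rw [mul_div_assoc', le_div_iff₀ hm₀]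
    nlinarith
  have h9 : 128 * lam * M ^ 2 * Lg / m₀ * (2 * Lg) ≤
      (2 * (M : ℝ) + 1) * ((2 * M + 1) * (64 * lam * Lg ^ 2 / m₀)) := by
    have e1 : 128 * lam * M ^ 2 * Lg / m₀ * (2 * Lg) = (4 * (M : ℝ) ^ 2) * (64 * lam * Lg ^ 2 / m₀) := by
      ring
    have e2 : (2 * (M : ℝ) + 1) * ((2 * M + 1) * (64 * lam * Lg ^ 2 / m₀)) =
        ((2 * (M : ℝ) + 1) * (2 * M + 1)) * (64 * lam * Lg ^ 2 / m₀) := by ring
    rw [e1, e2]
    refine mul_le_mul_of_nonneg_right (by nlinarith) (by positivity)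
  have e3 : (2 * (M : ℝ) + 1) * ((2 * M + 1) * ((7 + 64 * lam) * Lg ^ 2 / m₀)) =
      (2 * (M : ℝ) + 1) * ((2 * M + 1) * (7 * Lg ^ 2 / m₀)) +
        (2 * (M : ℝ) + 1) * ((2 * M + 1) * (64 * lam * Lg ^ 2 / m₀)) := by ring
  rw [e3]
  push_cast
  linarith

end Pool.HOPK
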