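import Pool.Agent.H71.HOPK.Pl
import Pool.Agent.H68.OWN.Nf

/-!
# The own path of a nonfull coordinate, relative to a quantity and for contexts: jets of any order

`path_rel` of `H68/OWN/Ng` for every `k ≥ 1` (no bound on `k` in terms of `K`), from `path_law`.
-/

set_option autoImplicit false

namespace Pool.HOPK

open Finset Real MvPolynomial
open Pool.Agent.H49.Ent Pool.Agent.H32.Dense Pool.STK Pool.KA Pool.KSAT Pool.K2S Pool.PB Pool.GEN
open Pool.S6C Pool.RCD Pool.LA91 Pool.OWN68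
open Pool.GRD (LbP)

variable {J : ℕ}

/-- **The own path of a nonfull coordinate is few bits given the ball**, relative to a quantity. -/
theorem path_rel {k : ℕ} (hk : 1 ≤ k) {h : ℝ} (hh : 0 < h) (hh1 : h ≤ 1) {ε : ℝ}
    (hε : 0 < ε) : ∃ δ : ℝ, 0 < δ ∧ ∀ {m : ℕ} {S : PCl m} {C₀ : ℝ} (_ : TmC S C₀)
    {I : Finset (Fin m)} {κ : Fin m} {w a p q r : ℝ} (_ : 0 ≤ w) (_ : w ≤ a) (_ : a ≤ 1)
    (_ : 0 < q) (_ : w + q ≤ 1) (_ : 0 ≤ r)
    {U₀ : Type} {Qu : Qt m U₀}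
    {α γ : ∀ J : ℕ, Fam m J → Type} {f : ∀ (J : ℕ) (F : Fam m J), F.Ω → α J F}
    {y : ∀ (J : ℕ) (F : Fam m J), F.Ω → γ J F}
    (_ : ∀ (J : ℕ) (F : Fam m J), ∃ φ : α J F → PtT F, ∀ ω, ptr F J ω = φ (f J F ω))
    (_ : ∀ (J : ℕ) (F : Fam m J), ∃ φ : γ J F → ℕ, ∀ ω, F.T ω = φ (y J F ω))
    {e : ℝ} (_ : 0 < e) {K : ℕ} {η : ℕ → ℝ}
    (Ψ : ∀ (J : ℕ) (F : Fam m J), (F.Ω → Prop) → ∀ V C : Type, (PtT F → V) → (LnT F → V) →
      (V → MvPolynomial (Option (Fin m)) ℝ) → (LnT F → C) → Prop)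
    (_ : ∀ (J : ℕ) (F : Fam m J) (A : F.Ω → Prop) (V C : Type) (z : PtT F → V) (z' : LnT F → V)
      (G : V → MvPolynomial (Option (Fin m)) ℝ) (c : LnT F → C), Ψ J F A V C z z' G c →
      LbOK F I κ K ⌊e * J⌋₊ J ⌊w * J⌋₊ ⌊(r + e) * J⌋₊ ⌊(p - e) * J⌋₊ A z z' G)
    (_ : ∀ (J : ℕ) (F : Fam m J) (A B : F.Ω → Prop) (V C : Type) (z : PtT F → V)
      (z' : LnT F → V) (G : V → MvPolynomial (Option (Fin m)) ℝ) (c : LnT F → C), Sub B A →
      Ψ J F A V C z z' G c → Ψ J F B V C z z' G c),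
    (∀ K₀ : ℕ, Bas S (fun J F A => ∀ (V C : Type) (z : PtT F → V) (z' : LnT F → V)
      (G : V → MvPolynomial (Option (Fin m)) ℝ) (c : LnT F → C), Ψ J F A V C z z' G c →
      ∀ u₀ : F.Ω → U₀, Qu.P K₀ e J F A u₀ →
      ∃ (V₁ : Type) (z₁ : F.Ω → V₁), Cl2 (f J F) (vg a J F) A z₁ ∧
      CH (Pool.Agent.H49.Ent.cond F.p A True) (fun ω => c (vg w J F ω))
        (fun ω => (u₀ ω, (z₁ ω, y J F ω))) ≤ δ * q * J)) →
    (∀ x : ℝ, 0 ≤ x → x ≤ q → Bas S (fun J F A => ∀ (V C : Type) (z : PtT F → V)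
      (z' : LnT F → V) (G : V → MvPolynomial (Option (Fin m)) ℝ) (c : LnT F → C),
      Ψ J F A V C z z' G c →
      CH (Pool.Agent.H49.Ent.cond F.p A True)
        (fun ω => ⌊(2 : ℝ) ^ ((p + q) * J) * ojet F κ 0 (G (z' (slam F ⌊w * J⌋₊ ω))) ω⌋)
        (fun ω => (⌊(2 : ℝ) ^ ((p + x) * J) * ojet F κ 0 (G (z' (slam F ⌊w * J⌋₊ ω))) ω⌋,
          (z' (slam F ⌊w * J⌋₊ ω), (c (slam F ⌊w * J⌋₊ ω), F.W ω)))) ≤
        ((1 - h) * (q - x) * Real.log 2 + δ * q) * J)) →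
    ∑ j ∈ range (K + 3), η j ≤ δ * q →
    (∀ j < K + 3, F1 S f (vg a) y Qu
      (qJet m I κ j w p (if j = k then p - k * w else p + q - j * w)) e (η j)) →
    ∀ K₀ : ℕ, Bas S (fun J F A => ∀ (V C : Type) (z : PtT F → V) (z' : LnT F → V)
        (G : V → MvPolynomial (Option (Fin m)) ℝ) (c : LnT F → C), Ψ J F A V C z z' G c →
        ∀ u₀ : F.Ω → U₀, Qu.P K₀ e J F A u₀ →
        ∃ (V₁ : Type) (z₁ : F.Ω → V₁), Cl2 (f J F) (vg a J F) A z₁ ∧
          CH (Pool.Agent.H49.Ent.cond F.p A True)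
            (fun ω => ((z' (vg w J F ω), (vg w J F ω).2), (c (vg w J F ω),
              fun j : Fin (K + 3) => ⌊jr F ⌊w * J⌋₊ (2 ^ ((p + q) * J)) κ z' G j (vg w J F ω)⌋)))
            (fun ω => (u₀ ω, (z₁ ω, y J F ω))) ≤ ε * q * J) := by
  classical
  obtain ⟨δ₁, hδ₁, c₀, hc₀, N₀, hN₀, H⟩ := path_law hk hh hh1 hε
  refine ⟨δ₁ / 2, half_pos hδ₁, ?_⟩
  intro m S C₀ htm I κ w a p q r hw0 hwa ha hq hwq hr U₀ Qu α γ f y hf hy e he K η Ψ hΨl hΨ hc
    hnf hsη hjet K₀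
  have hw1 : w < 1 := by linarith
  have hN0 : (0 : ℝ) < N₀ := by exact_mod_cast hN₀
  have hδq : 0 < δ₁ * q := by positivity
  obtain ⟨D, hD⟩ : ∃ D : ℕ, D = max (K + 2) k := ⟨_, rfl⟩
  have hkD : k ≤ D := by omega
  have hKD : K + 3 ≤ D + 1 := by omega
  obtain ⟨J₃, H⟩ := H D hkD hw0 hq hwq
  -- the jets
  obtain ⟨Nj, hNj⟩ : ∃ Nj : ℕ → ℝ, Nj = fun j => if j = k then p - k * w else p + q - j * w :=
    ⟨_, rfl⟩
  have hF : ∀ j < K + 3, F1 S f (vg a) y Qu (qJet m I κ j w p (Nj j)) e (η j) := by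
    intro j hj
    rw [hNj]
    exact hjet j hj
  choose M Jm hcnt using fun j : ℕ => cnt_jet m K j (N := Nj j) (w := w) hr he
  obtain ⟨M', hM'⟩ : ∃ M' : ℕ, M' = K₀ + K + ∑ j ∈ range (K + 3), M j := ⟨_, rfl⟩
  obtain ⟨J₁, hJ₁⟩ : ∃ J₁ : ℕ, J₁ = ∑ j ∈ range (K + 3), Jm j := ⟨_, rfl⟩
  -- the accuracy of the jets
  obtain ⟨ρ, hρ⟩ : ∃ ρ : ℝ, ρ = δ₁ / 2 * q / (K + 3) := ⟨_, rfl⟩
  have hρ0 : 0 < ρ := by
    rw [hρ]
    positivity
  have hρK : (K + 3 : ℝ) * ρ = δ₁ / 2 * q := by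
    rw [hρ]
    field_simp
  obtain ⟨er, her⟩ : ∃ er : ℕ → ℝ, er = fun j => if j < K + 3 then η j + ρ else 0 := ⟨_, rfl⟩
  have her1 : ∀ j < K + 3, er j = η j + ρ := fun j hj => by rw [her]; exact if_pos hj
  have her2 : ∀ j, ¬ j < K + 3 → er j = 0 := fun j hj => by rw [her]; exact if_neg hj
  have hser : ∑ j ∈ range (D + 1), er j ≤ δ₁ * q := by
    have h1 : ∑ j ∈ range (D + 1), er j = ∑ j ∈ range (K + 3), er j := by
      symm
      refine Finset.sum_subset (fun j hj => ?_) (fun j _ hj => ?_)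
      · rw [Finset.mem_range] at hj ⊢
        omega
      · rw [Finset.mem_range] at hj
        exact her2 j hj
    have h2 : ∑ j ∈ range (K + 3), er j = ∑ j ∈ range (K + 3), η j + (K + 3 : ℝ) * ρ := by
      rw [Finset.sum_congr rfl fun j hj => her1 j (Finset.mem_range.1 hj),
        Finset.sum_add_distrib, Finset.sum_const, card_range, nsmul_eq_mul]
      push_cast
      ring
    rw [h1, h2, hρK]
    linarith
  obtain ⟨J₂, hJ₂⟩ := exists_nat_ge (Real.log 7 / ρ)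
  refine Bas.mono (max (max J₁ J₂) J₃) (((Bas.all (K + 3) fun j hj => hF j hj M').and
    (Bas.all (N₀ + 1) fun i hi => Pool.GRW.bas_part (hnf (q * i / N₀) (by positivity) (by
      rw [div_le_iff₀ hN0]
      refine mul_le_mul_of_nonneg_left ?_ hq.le
      exact_mod_cast Nat.lt_succ_iff.mp hi)) (c := 1 / c₀) (by positivity))).and
    ((hc K₀).and (Pool.GRW.tmc_bas htm (ψ := δ₁ * q) (by positivity)))) ?_
  rintro J hJ F A ⟨⟨HF, HN⟩, hcA, hA, hT⟩ V Cc z z' G c hcΨ u₀ hu₀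
  obtain ⟨Vc, zc, hzc, hc⟩ := hcA V Cc z z' G c hcΨ u₀ hu₀
  have hlb := hΨl J F A V Cc z z' G c hcΨ
  have hJ1 : J₁ ≤ J := (le_max_left _ _).trans ((le_max_left _ _).trans hJ)
  have hJ2 : (J₂ : ℝ) ≤ J := by
    exact_mod_cast (le_max_right _ _).trans ((le_max_left _ _).trans hJ)
  have hJ3 : J₃ ≤ J := (le_max_right _ _).trans hJ
  have hJ0 : (0 : ℝ) ≤ J := Nat.cast_nonneg J
  have hl7 : Real.log 7 ≤ ρ * J := by
    have h1 := hJ₂.trans hJ2
    rw [div_le_iff₀ hρ0] at h1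
    linarith
  obtain ⟨W, hW⟩ : ∃ W : ℕ, W = ⌊w * J⌋₊ := ⟨_, rfl⟩
  obtain ⟨Q, hQ⟩ : ∃ Q : ℕ, Q = ⌊q * J⌋₊ := ⟨_, rfl⟩
  have hQ2 : q * J < Q + 1 := by
    rw [hQ]
    exact Nat.lt_floor_add_one _
  have hWJ : W ≤ J := by
    rw [hW]
    refine Nat.floor_le_of_le ?_
    nlinarith
  obtain ⟨σ, hσ⟩ : ∃ σ : ℝ, σ = 2 ^ ((p + q) * J) := ⟨_, rfl⟩
  have hσ0 : 0 < σ := by
    rw [hσ]
    exact Real.rpow_pos_of_pos (by norm_num) _
  obtain ⟨q', hq'⟩ : ∃ q' : F.Ω → ℝ, q' = Pool.Agent.H49.Ent.cond F.p A True := ⟨_, rfl⟩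
  have hq'l : IsLaw q' := by
    rw [hq']
    exact isLaw_cond F.isLaw hA
  have h0 := hq'l.nonneg
  rw [← hq'] at hc hT
  rw [← hq', ← hσ, ← hW]
  rw [← hW] at hlb
  have hvg : ∀ ω, vg w J F ω = slam F W ω := fun ω => by rw [hW]; rfl
  simp only [hvg] at hc ⊢
  have hdegK : ∀ v, (X (some κ) - G v).totalDegree ≤ K + 2 := fun v => by
    refine (MvPolynomial.totalDegree_sub _ _).trans (max_le ?_ ?_)
    · exact (totalDegree_X _).le.trans (by omega)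
    · exact (hlb.deg v).trans (by omega)
  have hdR : ∀ x, (jR F W σ κ z' G x).natDegree ≤ K + 2 := fun x => natDegree_jR hdegK x
  have hpj : ∀ (j : ℕ) (ω : F.Ω), pj F (jR F W σ κ z' G) W j ω =
      σ * (1 / 2 ^ (W + 1)) ^ j * ojet F κ j (G (z' (slam F W ω))) ω := fun j ω =>
    jR_jet hWJ ω j
  have hpj0 : ∀ (j : ℕ) (ω : F.Ω), ¬ j < K + 3 → pj F (jR F W σ κ z' G) W j ω = 0 := by
    intro j ω hj
    unfold pj
    rw [Polynomial.iterate_derivative_eq_zero (by have := hdR (slam F W ω); omega),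
      Polynomial.eval_zero]
  -- the jets as integers
  obtain ⟨U, hU⟩ : ∃ U : F.Ω → Fin (K + 3) → ℤ, U = fun ω (j : Fin (K + 3)) =>
    ⌊(2 : ℝ) ^ (Nj (j : ℕ) * J) * ojet F κ (j : ℕ) (G (z' (slam F W ω))) ω⌋ := ⟨_, rfl⟩
  have hz : ∀ j : Fin (K + 3), ∃ (V₂ : Type) (z₂ : F.Ω → V₂), Cl2 (f J F) (vg a J F) A z₂ ∧
      CH q' (fun ω => U ω j) (fun ω => (u₀ ω, (z₂ ω, y J F ω))) ≤ η j * J := by
    intro j
    have h1 := HF j j.2 u₀ (fun ω => U ω j) (Qu.mono (by omega) le_rfl hu₀)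
      ⟨?_, V, z, z', G, ?_, fun ω _ => by rw [hU, hW]⟩
    · rw [← hq'] at h1
      exact h1
    · have hMj : M j ≤ M' := by
        rw [hM']
        have := Finset.single_le_sum (f := M) (fun i _ => Nat.zero_le _)
          (Finset.mem_range.2 j.2)
        omega
      have hJj : Jm j ≤ J := by
        have := Finset.single_le_sum (f := Jm) (fun i _ => Nat.zero_le _)
          (Finset.mem_range.2 j.2)
        omega
      have h2 := hcnt j J hJj F I κ _ A V z z' G (by rw [← hW]; exact hlb)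
      rw [← hW] at h2
      rw [hU]
      refine h2.trans (Real.exp_le_exp.2 (mul_le_mul_of_nonneg_right ?_ hJ0))
      exact_mod_cast hMj
    · rw [← hW]
      exact (LbP.of hlb).mono (Finset.Subset.refl _) (by omega) le_rfl
  choose Vz zz hzz hCz using hz
  -- the record of the ball
  obtain ⟨Y, hY⟩ : ∃ Y : F.Ω → U₀ × ((V × (F.ζ × ℕ)) × (Vc × (∀ j, Vz j))) × γ J F, Y = fun ω =>
    (u₀ ω, ((z' (slam F W ω), (slam F W ω).2), (zc ω, fun j => zz j ω)), y J F ω) := ⟨_, rfl⟩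
  have H' := H J hJ3 F A hA (jR F W σ κ z' G) (fun x : LnT F => ((z' x, x.2), c x)) Y er
  rw [← hq', ← hW, ← hQ] at H'
  have hYj : ∀ j : Fin (K + 3), CH q' (fun ω => U ω j) Y ≤ η j * J := by
    intro j
    refine le_trans (CH_mono_cond h0 fun ω ω' _ _ hh => ?_) (hCz j)
    rw [hY] at hh
    simp only [Prod.mk.injEq] at hh ⊢
    exact ⟨hh.1, congrFun hh.2.1.2.2 j, hh.2.2⟩
  have hYc : CH q' (fun ω => c (slam F W ω)) Y ≤ δ₁ / 2 * q * J := by
    refine le_trans (CH_mono_cond h0 fun ω ω' _ _ hh => ?_) hc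
    rw [hY] at hh
    simp only [Prod.mk.injEq] at hh ⊢
    exact ⟨hh.1, hh.2.1.2.1, hh.2.2⟩
  -- the scales
  have hU1 : ∀ (j : ℕ) (hj : j < K + 3), j ≠ k → ∀ ω ω', U ω ⟨j, hj⟩ = U ω' ⟨j, hj⟩ →
      |pj F (jR F W σ κ z' G) W j ω - pj F (jR F W σ κ z' G) W j ω'| ≤ 1 := by
    intro j hj hjk ω ω' e
    rw [hU] at e
    have e1 : Nj j = p + q - j * w := by
      rw [hNj]
      exact if_neg hjk
    simp only [e1] at e
    rw [hpj, hpj]
    refine fl_scale (by positivity) ?_ (Real.rpow_pos_of_pos (by norm_num) _) e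
    rw [one_mul, hσ, hW]
    exact (scale_le hw0 J j).1
  have hUk : ∀ (hj : k < K + 3) (ω ω' : F.Ω), U ω ⟨k, hj⟩ = U ω' ⟨k, hj⟩ →
      |pj F (jR F W σ κ z' G) W k ω - pj F (jR F W σ κ z' G) W k ω'| ≤ 2 * 2 ^ Q := by
    intro hj ω ω' e
    rw [hU] at e
    have e1 : Nj k = p - k * w := by
      rw [hNj]
      exact if_pos rfl
    simp only [e1] at e
    rw [hpj, hpj]
    refine fl_scale (by positivity) ?_ (Real.rpow_pos_of_pos (by norm_num) _) e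
    have e2 : σ * (1 / 2 ^ (W + 1)) ^ k ≤ 2 ^ ((p + q - k * w) * J) := by
      rw [hσ, hW]
      exact (scale_le hw0 J k).1
    refine e2.trans ?_
    have e3 : (2 : ℝ) ^ ((p + q - k * w) * J) = 2 ^ (q * J) * 2 ^ ((p - k * w) * J) := by
      rw [← Real.rpow_add (by norm_num)]
      congr 1
      ring
    rw [e3]
    refine mul_le_mul_of_nonneg_right ?_ (Real.rpow_pos_of_pos (by norm_num) _).le
    have e4 : (2 : ℝ) * 2 ^ Q = 2 ^ ((Q : ℝ) + 1) := by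
      rw [Real.rpow_add (by norm_num), Real.rpow_one, Real.rpow_natCast, mul_comm]
    rw [e4]
    exact Real.rpow_le_rpow_of_exponent_le (by norm_num) hQ2.le
  have hl57 : Real.log 5 ≤ Real.log 7 := Real.log_le_log (by norm_num) (by norm_num)
  -- the steps
  have hfin := H' (fun x => (hdR x).trans (by omega)) hT ?_ ?_ hser ?_ ?_ ?_
  · -- the end
    obtain ⟨φf, hφf⟩ := hf J F
    obtain ⟨φg, hφg⟩ := vg_mono hwa ha J F
    refine ⟨_, fun ω => ((z' (slam F W ω), (slam F W ω).2), (zc ω, fun j => zz j ω)),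
      Cl2.join ⟨?_, ?_⟩ (Cl2.join hzc (Cl2.pi hzz)), ?_⟩
    · refine ⟨fun x => (z (φf x), ((φf x).2.2, (φf x).2.1 / 2 ^ (J - W))), fun ω hω => ?_⟩
      dsimp only
      rw [← hφf ω, hlb.cls ω hω]
      rfl
    · refine ⟨fun x => (z' (φg x), (φg x).2), fun ω _ => ?_⟩
      dsimp only
      rw [← hφg ω, hvg ω]
    · rw [hY] at hfin
      refine le_trans (CH_mono_left h0 fun ω ω' _ _ e => ?_) hfin
      have e0 := (Prod.ext_iff.mp e).1
      simp only [Prod.mk.injEq] at e0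
      obtain ⟨⟨⟨e1, e2⟩, e3⟩, e4⟩ := e0
      simp only [Prod.mk.injEq]
      refine ⟨⟨e1, e2⟩, e3, funext fun j => ?_⟩
      exact congrFun e4 ⟨(j : ℕ), lt_of_lt_of_le j.2 hKD⟩
  · -- the time and the position
    intro ω ω' _ _ e
    rw [hY] at e
    simp only [Prod.mk.injEq] at e
    obtain ⟨φ, hφ⟩ := hy J F
    refine ⟨?_, (Prod.ext_iff.mp e.2.1.1.2).1⟩
    rw [hφ, hφ, e.2.2]
  · -- the context
    refine le_trans (le_of_eq ?_) (hYc.trans ?_)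
    · refine CH_congr h0 ?_ ?_ (fun _ _ _ _ e => e) (fun _ _ _ _ e => e)
      · intro ω ω' _ _ e
        simp only [Prod.mk.injEq] at e ⊢
        exact e.1.2
      · intro ω ω' _ _ e
        have e1 := (Prod.ext_iff.mp e).2
        rw [hY] at e1
        simp only [Prod.mk.injEq] at e e1 ⊢
        exact ⟨⟨e1.2.1.1.1, e1.2.1.1.2⟩, e.1⟩
    · have : 0 ≤ δ₁ / 2 * (q * J) := by positivity
      linarith
  · -- the jets
    intro j hjD hjk
    by_cases hj : j < K + 3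
    · rw [her1 j hj]
      have s1 := CH_le_add h0 (fun ω => ⌊pj F (jR F W σ κ z' G) W j ω⌋)
        (fun ω => U ω ⟨j, hj⟩) Y
      have s2 := CH_pair (D := 1 + 1) hq'l (fun ω => ⌊pj F (jR F W σ κ z' G) W j ω⌋)
        (fun ω => (U ω ⟨j, hj⟩, Y ω)) (fun ω ω' _ _ e => by
          have h3 := hU1 j hj hjk ω ω' (Prod.ext_iff.mp e).1
          exact floor_sub_le (by push_cast; exact h3))
      have s3 := hYj ⟨j, hj⟩
      norm_num at s2
      dsimp only at s3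
      linarith
    · rw [her2 j hj, zero_mul]
      refine le_of_eq (CH_eq_zero h0 fun ω ω' _ _ _ => ?_)
      simp only [hpj0 j _ hj]
  · -- the jet of order `k`
    by_cases hj : k < K + 3
    · rw [her1 k hj]
      have s1 := CH_le_add h0 (fun ω => ⌊pj F (jR F W σ κ z' G) W k ω / 2 ^ Q⌋)
        (fun ω => U ω ⟨k, hj⟩) Y
      have s2 := CH_pair (D := 2 + 1) hq'l (fun ω => ⌊pj F (jR F W σ κ z' G) W k ω / 2 ^ Q⌋)
        (fun ω => (U ω ⟨k, hj⟩, Y ω)) (fun ω ω' _ _ e => by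
          have h3 := hUk hj ω ω' (Prod.ext_iff.mp e).1
          refine floor_sub_le ?_
          rw [← sub_div, abs_div, abs_of_pos (by positivity : (0 : ℝ) < 2 ^ Q),
            div_le_iff₀ (by positivity)]
          push_cast
          exact h3)
      have s3 := hYj ⟨k, hj⟩
      norm_num at s2
      dsimp only at s3
      linarith
    · rw [her2 k hj, zero_mul]
      refine le_of_eq (CH_eq_zero h0 fun ω ω' _ _ _ => ?_)
      simp only [hpj0 k _ hj]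
  · -- the rows
    intro B hBA hPB i hi
    have hPB0 : 0 < Pe F.p B := lt_of_lt_of_le (by positivity) hPB
    have hpart : Pe F.p A ≤ 1 / c₀ * Pe F.p B := by
      rw [one_div, ← div_eq_inv_mul, le_div_iff₀ hc₀]
      linarith
    have hBl : IsLaw (Pool.Agent.H49.Ent.cond F.p B True) := isLaw_cond F.isLaw hPB0
    have h1 := HN i (Nat.lt_succ_of_le hi) B hBA hpart V Cc z z' G c
      (hΨ _ _ _ _ _ _ _ _ _ _ hBA hcΨ)
    obtain ⟨x, hx⟩ : ∃ x : ℝ, x = q * i / N₀ := ⟨_, rfl⟩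
    rw [← hx, ← hW, ← hσ] at h1
    rw [← hx]
    have e0 : ∀ ω, pj F (jR F W σ κ z' G) W 0 ω = σ * ojet F κ 0 (G (z' (slam F W ω))) ω := by
      intro ω
      rw [hpj, pow_zero, mul_one]
    have e1 : ∀ ω, pj F (jR F W σ κ z' G) W 0 ω / 2 ^ ((q - x) * J) =
        (2 : ℝ) ^ ((p + x) * J) * ojet F κ 0 (G (z' (slam F W ω))) ω := by
      intro ω
      rw [e0, hσ]
      have e2 : (2 : ℝ) ^ ((p + q) * J) = 2 ^ ((q - x) * J) * 2 ^ ((p + x) * J) := by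
        rw [← Real.rpow_add (by norm_num)]
        congr 1
        ring
      have e3 : (0 : ℝ) < 2 ^ ((q - x) * J) := Real.rpow_pos_of_pos (by norm_num) _
      rw [e2]
      field_simp
    simp only [e1]
    simp only [e0]
    refine (CH_mono_cond hBl.nonneg fun ω ω' _ _ e => ?_).trans (h1.trans ?_)
    · simp only [Prod.mk.injEq] at e ⊢
      exact ⟨e.1, e.2.1.1.1, e.2.1.2, e.2.2⟩
    · refine mul_le_mul_of_nonneg_right ?_ hJ0
      have : 0 ≤ δ₁ * q := hδq.le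
      linarith

end Pool.HOPK
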