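import Pool.Agent.H71.HOPK.Npt
import Pool.Agent.H68.OWN.Jd

/-!
# The own path, with the digits of its jets: jets of any order

`Npk`: the path is `(P x).eval u + g`, `u = τ / M`, `P x` a polynomial of degree `≤ k`, `g` a function
of the context and of the time; the record `G` of the ball knows the time, the position and the jets
of order `< k` of `P` to `O(1)`. `npl`: all coefficients to all digits are few bits given `G`.
-/

set_option autoImplicit false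

namespace Pool.HOPK

open Finset Real
open Pool.Agent.H49.Ent Pool.Agent.H32.Dense Pool.STK Pool.NFD Pool.OWN68

/-! ### Taylor coefficients -/

theorem taylor_bd {k : ℕ} {f : Polynomial ℝ} (hf : f.natDegree ≤ k) {B : ℝ}
    (hB : ∀ j ≤ k, |f.coeff j| ≤ B) {r : ℝ} (hr : |r| ≤ 1) (n : ℕ) :
    |(Polynomial.taylor r f).coeff n| ≤ (k + 1) * 2 ^ k * B := by
  have hB0 : 0 ≤ B := (abs_nonneg _).trans (hB 0 (Nat.zero_le _))
  rw [Polynomial.taylor_coeff, Polynomial.eval_eq_sum_range' (n := k + 1)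
    (lt_of_le_of_lt (Polynomial.natDegree_hasseDeriv_le f n) (by omega))]
  refine (Finset.abs_sum_le_sum_abs _ _).trans ?_
  have h1 : ∀ i ∈ range (k + 1), |(Polynomial.hasseDeriv n f).coeff i * r ^ i| ≤ 2 ^ k * B := by
    intro i _
    rw [Polynomial.hasseDeriv_coeff, abs_mul, abs_mul, abs_pow, Nat.abs_cast]
    have hri : |r| ^ i ≤ 1 := pow_le_one₀ (abs_nonneg _) hr
    by_cases hin : i + n ≤ k
    · have h2 : (((i + n).choose n : ℕ) : ℝ) ≤ 2 ^ k := by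
        have h3 : (i + n).choose n ≤ 2 ^ k :=
          (Nat.choose_le_two_pow (i + n) n).trans (Nat.pow_le_pow_right (by norm_num) hin)
        exact_mod_cast h3
      calc (((i + n).choose n : ℕ) : ℝ) * |f.coeff (i + n)| * |r| ^ i ≤ 2 ^ k * B * 1 := by
            refine mul_le_mul ?_ hri (by positivity) (by positivity)
            exact mul_le_mul h2 (hB _ hin) (abs_nonneg _) (by positivity)
        _ = 2 ^ k * B := mul_one _
    · rw [Polynomial.coeff_eq_zero_of_natDegree_lt (by omega : f.natDegree < i + n), abs_zero,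
        mul_zero, zero_mul]
      positivity
  refine (Finset.sum_le_sum h1).trans (le_of_eq ?_)
  rw [Finset.sum_const, card_range, nsmul_eq_mul]
  push_cast
  ring

theorem taylor_top {k : ℕ} {f : Polynomial ℝ} (hf : f.natDegree ≤ k) (r : ℝ) :
    (Polynomial.taylor r f).coeff k = f.coeff k := by
  rw [Polynomial.taylor_coeff, Polynomial.eval_eq_sum_range' (n := k + 1)
    (lt_of_le_of_lt (Polynomial.natDegree_hasseDeriv_le f k) (by omega)),
    Finset.sum_eq_single 0]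
  · rw [Polynomial.hasseDeriv_coeff]
    simp
  · intro i _ hi
    rw [Polynomial.hasseDeriv_coeff, Polynomial.coeff_eq_zero_of_natDegree_lt
      (by omega : f.natDegree < i + k)]
    simp
  · intro h
    exact absurd (Finset.mem_range.mpr (Nat.succ_pos k)) h

theorem eval_taylor {k : ℕ} {f : Polynomial ℝ} (hf : f.natDegree ≤ k) (r u : ℝ) :
    f.eval u = ∑ j ∈ range (k + 1), (Polynomial.taylor r f).coeff j * (u - r) ^ j := by
  rw [← Polynomial.taylor_eval_sub r f u, Polynomial.eval_eq_sum_range' (n := k + 1)]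
  rw [Polynomial.natDegree_taylor]
  omega

/-- The value of a difference of polynomials, up to its last jet. -/
theorem eval_last {k : ℕ} {f : Polynomial ℝ} (hf : f.natDegree ≤ k) {K r u : ℝ} (hr : |r| ≤ 1)
    (hu : |u| ≤ 1) (hK : 0 ≤ K) (hj : ∀ j < k, |(Polynomial.taylor r f).coeff j| ≤ K) :
    |f.eval u - f.coeff k * (u - r) ^ k| ≤ k * 2 ^ k * K := by
  rw [eval_taylor hf r u, Finset.sum_range_succ, taylor_top hf, add_sub_cancel_right]
  refine (Finset.abs_sum_le_sum_abs _ _).trans ?_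
  have h0 : |u - r| ≤ 2 := by
    have := abs_sub u r
    linarith
  have h1 : ∀ j ∈ range k, |(Polynomial.taylor r f).coeff j * (u - r) ^ j| ≤ 2 ^ k * K := by
    intro j hjk
    have hjk' := Finset.mem_range.mp hjk
    rw [abs_mul, abs_pow, mul_comm]
    have h2 : |u - r| ^ j ≤ 2 ^ k := (pow_le_pow_left₀ (abs_nonneg _) h0 j).trans
      (pow_le_pow_right₀ (by norm_num) hjk'.le)
    exact mul_le_mul h2 (hj j hjk') (abs_nonneg _) (by positivity)
  refine (Finset.sum_le_sum h1).trans (le_of_eq ?_)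
  rw [Finset.sum_const, card_range, nsmul_eq_mul]
  ring

/-- The coefficients, given the jets. -/
theorem coeff_of_jets {k : ℕ} {f : Polynomial ℝ} (hf : f.natDegree ≤ k) {K m r : ℝ} (hr : |r| ≤ 1)
    (hK : 0 ≤ K) (hm : 1 ≤ m) (hj : ∀ j < k, |(Polynomial.taylor r f).coeff j| ≤ K)
    (hk : |f.coeff k| ≤ m) (n : ℕ) : |f.coeff n| ≤ (k + 1) * 2 ^ k * (K + 1) * m := by
  have h1 : ∀ j ≤ k, |(Polynomial.taylor r f).coeff j| ≤ (K + 1) * m := by
    intro j hjk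
    rcases hjk.lt_or_eq with h | h
    · refine (hj j h).trans ?_
      nlinarith
    · rw [h, taylor_top hf]
      refine hk.trans ?_
      nlinarith
  have h2 := taylor_bd (f := Polynomial.taylor r f) (r := -r) (k := k)
    (by rw [Polynomial.natDegree_taylor]; exact hf) h1 (by rwa [abs_neg]) n
  rw [Polynomial.taylor_taylor, neg_add_cancel, Polynomial.taylor_zero] at h2
  refine h2.trans (le_of_eq ?_)
  ring

/-! ### The path -/

/-- The path. -/
noncomputable def pthk {Λ 𝒞 : Type} (M : ℕ) (ctx : Λ → 𝒞) (P : Λ → Polynomial ℝ) (g : 𝒞 → ℤ → ℝ)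
    (x : Λ) (τ : ℤ) : ℝ :=
  (P x).eval ((τ : ℝ) / M) + g (ctx x) τ

/-- The context with the coefficients to `y` digits. -/
noncomputable def ctyk {Λ 𝒞 : Type} (k Q : ℕ) (ctx : Λ → 𝒞) (P : Λ → Polynomial ℝ) (y : ℕ)
    (x : Λ) : 𝒞 × (Fin (k + 1) → ℤ) :=
  (ctx x, fun j => ⌊(P x).coeff j / 2 ^ (Q - y)⌋)

/-- The data of the own path. -/
structure Npk (k K A : ℕ) (h δ c₀ : ℝ) (Q : ℕ) {Ω Λ Γ 𝒞 𝒱 : Type} [Fintype Ω] (p : Ω → ℝ)
    (L : Ω → Λ) (t : Ω → ℤ) (G : Ω → Γ) (ctx : Λ → 𝒞) (P : Λ → Polynomial ℝ) (g : 𝒞 → ℤ → ℝ)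
    (Vd : Ω → 𝒱) (M : ℕ) (F : ℝ) : Prop where
  law : IsLaw p
  deg : ∀ x, (P x).natDegree ≤ k
  M1 : 2 ^ Q ≤ M
  M2 : M ≤ 2 ^ (A * Q)
  tM : ∀ ω, 0 < p ω → |t ω| ≤ (M : ℤ)
  Gt : ∀ ω ω', 0 < p ω → 0 < p ω' → G ω = G ω' → t ω = t ω'
  Gx : ∀ ω ω', 0 < p ω → 0 < p ω' → G ω = G ω' →
    |pthk M ctx P g (L ω) (t ω) - pthk M ctx P g (L ω') (t ω)| ≤ K
  Gj : ∀ ω ω', 0 < p ω → 0 < p ω' → G ω = G ω' → ctx (L ω) = ctx (L ω') → ∀ j < k,
    |(Polynomial.taylor ((t ω : ℝ) / M) (P (L ω) - P (L ω'))).coeff j| ≤ K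
  tfull : Real.log (2 * M + 1) - δ * Q ≤ CH p t L
  vF : ∀ r : Ω → ℝ, IsLaw r → (∀ ω, 0 < r ω → 0 < p ω) → H r Vd ≤ F
  vfull : F - δ * Q ≤ CH p Vd G
  c0G : CH p (fun ω => ctyk k Q ctx P 0 (L ω)) G ≤ δ * Q
  nf : ∀ E : Ω → Prop, c₀ ≤ Pool.Agent.H49.Ent.law p E True → ∀ y ≤ Q,
    CH (cond p E True) (fun ω => ⌊pthk M ctx P g (L ω) (t ω)⌋)
      (fun ω => (⌊pthk M ctx P g (L ω) (t ω) / 2 ^ (Q - y)⌋, (Vd ω, (t ω, ctx (L ω))))) ≤
      (1 - h) * (((Q : ℝ) - y) * Real.log 2) + δ * Q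

section

variable {k K A : ℕ} {h δ c₀ : ℝ} {Q : ℕ} {Ω Λ Γ 𝒞 𝒱 : Type} [Fintype Ω] {p : Ω → ℝ}
  {L : Ω → Λ} {t : Ω → ℤ} {G : Ω → Γ} {ctx : Λ → 𝒞} {P : Λ → Polynomial ℝ} {g : 𝒞 → ℤ → ℝ}
  {Vd : Ω → 𝒱} {M : ℕ} {F : ℝ}

/-- The path at the time, given the context and the coefficients to `y` digits. -/
theorem pthk_near (hdeg : ∀ x, (P x).natDegree ≤ k) (hM : 1 ≤ M) {x x' : Λ} {τ : ℤ}
    (hτ : |τ| ≤ (M : ℤ)) (y : ℕ) (e : ctyk k Q ctx P y x = ctyk k Q ctx P y x') :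
    |pthk M ctx P g x τ - pthk M ctx P g x' τ| ≤ (k + 1) * 2 ^ (Q - y) := by
  have hm : (0 : ℝ) < 2 ^ (Q - y) := by positivity
  unfold ctyk at e
  obtain ⟨e0, e1⟩ := Prod.ext_iff.mp e
  dsimp only at e0 e1
  have hu := unit_le hM hτ
  unfold pthk
  rw [e0, add_sub_add_right_eq_sub, Polynomial.eval_eq_sum_range' (n := k + 1)
    (lt_of_le_of_lt (hdeg x) (Nat.lt_succ_self k)), Polynomial.eval_eq_sum_range' (n := k + 1)
    (lt_of_le_of_lt (hdeg x') (Nat.lt_succ_self k)), ← Finset.sum_sub_distrib]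
  refine (Finset.abs_sum_le_sum_abs _ _).trans ?_
  have h1 : ∀ j ∈ range (k + 1), |(P x).coeff j * ((τ : ℝ) / M) ^ j -
      (P x').coeff j * ((τ : ℝ) / M) ^ j| ≤ 2 ^ (Q - y) := by
    intro j hj
    have e2 := congrFun e1 ⟨j, Finset.mem_range.mp hj⟩
    dsimp only at e2
    have f1 := of_floor_div hm e2
    rw [← sub_mul, abs_mul, abs_pow]
    calc |(P x).coeff j - (P x').coeff j| * |(τ : ℝ) / M| ^ j ≤ 2 ^ (Q - y) * 1 :=
          mul_le_mul f1 (pow_le_one₀ (abs_nonneg _) hu) (by positivity) hm.le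
      _ = 2 ^ (Q - y) := mul_one _
  refine (Finset.sum_le_sum h1).trans (le_of_eq ?_)
  rw [Finset.sum_const, card_range, nsmul_eq_mul]
  push_cast
  ring

/-- The constant of the coefficients. -/
def jc (k K : ℕ) : ℕ := (k + 1) * 2 ^ k * (K + 1)

/-- **The data `Npd` of the own path.** -/
theorem Npk.npd (D : Npk k K A h δ c₀ Q p L t G ctx P g Vd M F) {δ' : ℝ}
    (h1 : δ * Q + Real.log (2 * (k + 2) + 1) + Real.log 11 +
      (k + 1) * Real.log (2 * (jc k K + 1) + 1) ≤ δ' * Q)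
    (hQ : 2 * k + 5 ≤ Q) :
    Npd k (jc k K) A h δ' c₀ Q p L t G (ctyk k Q ctx P)
      (fun x => (P x).coeff k)
      (fun x τ => ⌊pthk M ctx P g x τ⌋) Vd M F := by
  have h0 := D.law.nonneg
  have hM : 1 ≤ M := le_trans Nat.one_le_two_pow D.M1
  have hM0 : (0 : ℝ) < M := by exact_mod_cast hM
  have hln : 0 < Real.log 2 := Real.log_pos (by norm_num)
  have hk0 : (0 : ℝ) ≤ k := Nat.cast_nonneg k
  have l11 : 0 ≤ Real.log 11 := Real.log_nonneg (by norm_num)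
  have lk2 : 0 ≤ Real.log (2 * ((k : ℝ) + 2) + 1) := Real.log_nonneg (by linarith)
  have hK0 : (0 : ℝ) ≤ K := Nat.cast_nonneg K
  have hj0 : (0 : ℝ) ≤ jc k K := Nat.cast_nonneg _
  have lK : 0 ≤ Real.log (2 * ((jc k K : ℝ) + 1) + 1) := Real.log_nonneg (by linarith)
  have lK' : 0 ≤ (k + 1) * Real.log (2 * ((jc k K : ℝ) + 1) + 1) := by positivity
  have hδ : δ * Q ≤ δ' * Q := by linarith
  have hjc : ((jc k K : ℕ) : ℝ) = ((k : ℝ) + 1) * 2 ^ k * (K + 1) := by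
    unfold jc
    push_cast
    ring
  have hKj : (k : ℝ) * 2 ^ k * K + 1 ≤ jc k K := by
    rw [hjc]
    have h2 : (1 : ℝ) ≤ 2 ^ k := one_le_pow₀ (by norm_num)
    nlinarith [mul_nonneg hk0 (by positivity : (0 : ℝ) ≤ 2 ^ k),
      mul_nonneg hK0 (by positivity : (0 : ℝ) ≤ 2 ^ k)]
  -- a law with the same support
  have hsub : ∀ r : Ω → ℝ, IsLaw r → (∀ ω, 0 < r ω → 0 < p ω) → ∀ y ≤ Q,
      CH r (fun ω => ⌊pthk M ctx P g (L ω) (t ω) / 2 ^ (Q - y)⌋)
        (fun ω => (Vd ω, (t ω, ctyk k Q ctx P y (L ω)))) ≤ Real.log (2 * (k + 2) + 1) := by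
    intro r hr hrp y hy
    have h2 := CH_pair (D := k + 2) hr (fun ω => ⌊pthk M ctx P g (L ω) (t ω) / 2 ^ (Q - y)⌋)
      (fun ω => (Vd ω, (t ω, ctyk k Q ctx P y (L ω)))) (fun ω ω' hω hω' e => by
        simp only [Prod.mk.injEq] at e
        obtain ⟨-, e1, e2⟩ := e
        have h3 := pthk_near (g := g) D.deg hM (D.tM ω (hrp ω hω)) y e2
        have h4 : |pthk M ctx P g (L ω) (t ω) / 2 ^ (Q - y) -
            pthk M ctx P g (L ω') (t ω') / 2 ^ (Q - y)| ≤ (k + 1 : ℕ) := by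
          rw [← e1, ← sub_div, abs_div, abs_of_pos (by positivity : (0 : ℝ) < 2 ^ (Q - y)),
            div_le_iff₀ (by positivity)]
          push_cast
          exact h3
        exact floor_sub_le h4)
    refine h2.trans (le_of_eq ?_)
    push_cast
    ring_nf
  refine ⟨D.law, D.M1, D.M2, D.tM, ?_, by linarith [D.tfull], D.vF, by linarith [D.vfull], ?_,
    D.c0G.trans hδ, ?_, ?_, ?_, ?_⟩
  · -- rel
    intro y hy ω ω' hω hω' eG eC τ hτ
    have et := D.Gt ω ω' hω hω' eG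
    have ec : ctx (L ω) = ctx (L ω') := (Prod.ext_iff.mp eC).1
    have g1 := Int.floor_le (pthk M ctx P g (L ω') τ)
    have g2 := Int.lt_floor_add_one (pthk M ctx P g (L ω') τ)
    have g3 := Int.floor_le (pthk M ctx P g (L ω) τ)
    have g4 := Int.lt_floor_add_one (pthk M ctx P g (L ω) τ)
    have hu1 : |(τ : ℝ) / M| ≤ 1 := unit_le hM hτ
    have hu2 : |(t ω' : ℝ) / M| ≤ 1 := unit_le hM (D.tM ω' hω')
    have eu : ((τ : ℝ) - t ω) / M = (τ : ℝ) / M - (t ω' : ℝ) / M := by rw [et, sub_div]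
    have hd : (P (L ω') - P (L ω)).natDegree ≤ k :=
      (Polynomial.natDegree_sub_le _ _).trans (max_le (D.deg _) (D.deg _))
    have h5 := eval_last hd hu2 hu1 hK0 (D.Gj ω' ω hω' hω eG.symm ec.symm)
    have e4 : pthk M ctx P g (L ω') τ - pthk M ctx P g (L ω) τ =
        (P (L ω') - P (L ω)).eval ((τ : ℝ) / M) := by
      unfold pthk
      rw [ec, Polynomial.eval_sub]
      ring
    rw [← e4, Polynomial.coeff_sub] at h5
    rw [eu]
    have h6 := abs_le.mp h5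
    rw [abs_le]
    constructor <;> linarith [h6.1, h6.2]
  · -- nG
    have h2 : CH p (fun ω => (⌊pthk M ctx P g (L ω) (t ω)⌋, t ω)) G =
        CH p (fun ω => ⌊pthk M ctx P g (L ω) (t ω)⌋) G := by
      refine CH_congr h0 ?_ ?_ (fun _ _ _ _ e => e) (fun _ _ _ _ e => e)
      · intro ω ω' _ _ e
        simp only [Prod.mk.injEq] at e ⊢
        exact e.1.1
      · intro ω ω' hω hω' e
        simp only [Prod.mk.injEq] at e ⊢
        exact ⟨e.1, D.Gt ω ω' hω hω' e.2⟩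
    rw [h2]
    have h3 := CH_pair (D := K + 1) D.law (fun ω => ⌊pthk M ctx P g (L ω) (t ω)⌋) G
      (fun ω ω' hω hω' e => by
        have h4 := D.Gx ω ω' hω hω' e
        rw [← D.Gt ω ω' hω hω' e]
        exact floor_sub_le h4)
    have h5 : Real.log (2 * ((K + 1 : ℕ) : ℝ) + 1) ≤ Real.log (2 * (jc k K + 1) + 1) := by
      refine Real.log_le_log (by positivity) ?_
      have h2 : (1 : ℝ) ≤ 2 ^ k := one_le_pow₀ (by norm_num)
      have h6 : (K : ℝ) + 1 ≤ jc k K := by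
        rw [hjc]
        have h7 : (1 : ℝ) ≤ ((k : ℝ) + 1) * 2 ^ k := by nlinarith
        nlinarith
      push_cast
      linarith
    have h6 : 1 * Real.log (2 * ((jc k K : ℝ) + 1) + 1) ≤
        (k + 1) * Real.log (2 * (jc k K + 1) + 1) := mul_le_mul_of_nonneg_right (by linarith) lK
    have : 0 ≤ δ * Q := (CH_nonneg h0 _ _).trans D.c0G
    linarith
  · -- up
    intro y y' hy hyQ
    have hm1 : (1 : ℝ) ≤ 2 ^ (Q - y') := one_le_pow₀ (by norm_num)
    have hm0 : (0 : ℝ) < 2 ^ (Q - y') := by positivity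
    obtain ⟨Z, hZ⟩ : ∃ Z : Ω → ℤ × ((𝒞 × (Fin (k + 1) → ℤ)) × Γ), Z = fun ω =>
      (⌊(P (L ω)).coeff k / 2 ^ (Q - y')⌋, (ctyk k Q ctx P y (L ω), G ω)) := ⟨_, rfl⟩
    have hfib : ∀ ω ω', 0 < p ω → 0 < p ω' → Z ω = Z ω' → ctx (L ω) = ctx (L ω') ∧
        ∀ n, |(P (L ω)).coeff n - (P (L ω')).coeff n| ≤ jc k K * 2 ^ (Q - y') := by
      intro ω ω' hω hω' e
      rw [hZ] at e
      simp only [Prod.mk.injEq] at e
      obtain ⟨e1, e2, e3⟩ := e
      have ec : ctx (L ω) = ctx (L ω') := (Prod.ext_iff.mp e2).1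
      refine ⟨ec, fun n => ?_⟩
      have hd : (P (L ω) - P (L ω')).natDegree ≤ k :=
        (Polynomial.natDegree_sub_le _ _).trans (max_le (D.deg _) (D.deg _))
      have h2 := coeff_of_jets hd (unit_le hM (D.tM ω hω)) hK0 hm1
        (D.Gj ω ω' hω hω' e3 ec) (by
          rw [Polynomial.coeff_sub]
          exact of_floor_div hm0 e1) n
      rw [Polynomial.coeff_sub] at h2
      rw [hjc]
      exact h2
    have hfl : ∀ a b : ℝ, |a - b| ≤ jc k K * 2 ^ (Q - y') →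
        |⌊a / 2 ^ (Q - y')⌋ - ⌊b / 2 ^ (Q - y')⌋| ≤ ((jc k K + 1 : ℕ) : ℤ) := by
      intro a b hab
      have h2 : |a / 2 ^ (Q - y') - b / 2 ^ (Q - y')| ≤ ((jc k K : ℕ) : ℝ) := by
        rw [← sub_div, abs_div, abs_of_pos hm0, div_le_iff₀ hm0]
        exact hab
      exact floor_sub_le h2
    have b6 : CH p (fun ω => ctyk k Q ctx P y' (L ω)) Z =
        CH p (fun ω (j : Fin (k + 1)) => ⌊(P (L ω)).coeff j / 2 ^ (Q - y')⌋) Z := by
      refine CH_congr h0 ?_ ?_ (fun _ _ _ _ e => e) (fun _ _ _ _ e => e)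
      · intro ω ω' _ _ e
        unfold ctyk at e
        simp only [Prod.mk.injEq] at e ⊢
        exact e.1.2
      · intro ω ω' hω hω' e
        have e1 := (Prod.ext_iff.mp e).1
        have e2 := (hfib ω ω' hω hω' (Prod.ext_iff.mp e).2).1
        unfold ctyk
        exact Prod.ext e2 e1
    have b7 := CH_pis h0 (fun ω (j : Fin (k + 1)) => ⌊(P (L ω)).coeff j / 2 ^ (Q - y')⌋) Z
    have b8 : ∑ j : Fin (k + 1), CH p (fun ω => ⌊(P (L ω)).coeff j / 2 ^ (Q - y')⌋) Z ≤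
        ∑ _j : Fin (k + 1), Real.log (2 * ((jc k K : ℝ) + 1) + 1) := by
      refine Finset.sum_le_sum fun j _ => ?_
      have b1 := CH_pair (D := jc k K + 1) D.law (fun ω => ⌊(P (L ω)).coeff j / 2 ^ (Q - y')⌋) Z
        (fun ω ω' hω hω' e => hfl _ _ ((hfib ω ω' hω hω' e).2 j))
      push_cast at b1
      exact b1
    rw [Finset.sum_const, Finset.card_univ, Fintype.card_fin, nsmul_eq_mul] at b8
    push_cast at b8
    show CH p (fun ω => ctyk k Q ctx P y' (L ω))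
      (fun ω => (⌊(P (L ω)).coeff k / 2 ^ (Q - y')⌋,
        (ctyk k Q ctx P y (L ω), G ω))) ≤ δ' * Q
    rw [← hZ, b6]
    have : 0 ≤ δ * Q := (CH_nonneg h0 _ _).trans D.c0G
    linarith
  · -- nf
    intro E hE y hy
    by_cases hE0 : 0 < Pool.Agent.H49.Ent.law p E True
    · have hl : IsLaw (cond p E True) := ⟨cond_nonneg h0 E True, sum_cond p E hE0.ne'⟩
      have h2 := hsub _ hl (fun ω hω => ((cond_pos_iff h0 E True ω).mp hω).1) y hy
      have h3 := CH_le_add hl.nonneg (fun ω => ⌊pthk M ctx P g (L ω) (t ω)⌋)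
        (fun ω => ⌊pthk M ctx P g (L ω) (t ω) / 2 ^ (Q - y)⌋)
        (fun ω => (Vd ω, (t ω, ctyk k Q ctx P y (L ω))))
      have h4 : CH (cond p E True) (fun ω => ⌊pthk M ctx P g (L ω) (t ω)⌋)
          (fun ω => (⌊pthk M ctx P g (L ω) (t ω) / 2 ^ (Q - y)⌋,
            (Vd ω, (t ω, ctyk k Q ctx P y (L ω))))) ≤
          CH (cond p E True) (fun ω => ⌊pthk M ctx P g (L ω) (t ω)⌋)
          (fun ω => (⌊pthk M ctx P g (L ω) (t ω) / 2 ^ (Q - y)⌋,
            (Vd ω, (t ω, ctx (L ω))))) := by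
        refine CH_mono_cond hl.nonneg fun ω ω' _ _ e => ?_
        unfold ctyk at e
        simp only [Prod.mk.injEq] at e ⊢
        exact ⟨e.1, e.2.1, e.2.2.1, e.2.2.2.1⟩
      have h5 := D.nf E hE y hy
      linarith
    · -- the empty event
      have hz : ∀ ω, cond p E True ω = 0 := by
        intro ω
        unfold Pool.Agent.H49.Ent.cond
        have h6 : Pool.Agent.H49.Ent.law p E True = 0 :=
          le_antisymm (not_lt.mp hE0) (law_nonneg h0 E True)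
        rw [h6, div_zero, ite_self]
      have h7 : CH (cond p E True) (fun ω => ⌊pthk M ctx P g (L ω) (t ω)⌋)
          (fun ω => (Vd ω, (t ω, ctyk k Q ctx P y (L ω)))) = 0 := by
        unfold CH H
        simp [hz]
      have h8 : CH (cond p E True) (fun ω => ⌊pthk M ctx P g (L ω) (t ω)⌋)
          (fun ω => (⌊pthk M ctx P g (L ω) (t ω) / 2 ^ (Q - y)⌋,
            (Vd ω, (t ω, ctx (L ω))))) = 0 := by
        unfold CH H
        simp [hz]
      have h9 := D.nf E hE y hy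
      rw [h8] at h9
      show CH (cond p E True) (fun ω => ⌊pthk M ctx P g (L ω) (t ω)⌋)
          (fun ω => (Vd ω, (t ω, ctyk k Q ctx P y (L ω)))) ≤ _
      rw [h7]
      linarith
  · -- nv
    intro r hr hrp y hy
    have h2 := CH_pair (D := (k + 1) * 2 ^ (Q - y) + 1) hr
      (fun ω => ⌊pthk M ctx P g (L ω) (t ω)⌋)
      (fun ω => (Vd ω, (t ω, ctyk k Q ctx P y (L ω)))) (fun ω ω' hω hω' e => by
        simp only [Prod.mk.injEq] at e
        obtain ⟨-, e1, e2⟩ := e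
        have h3 := pthk_near (g := g) D.deg hM (D.tM ω (hrp ω hω)) y e2
        rw [← e1]
        refine floor_sub_le ?_
        push_cast
        exact h3)
    refine h2.trans ?_
    have h3 : 2 * (((k + 1) * 2 ^ (Q - y) + 1 : ℕ) : ℝ) + 1 ≤ Real.exp (2 * Q) := by
      have h4 : (2 : ℝ) ^ (Q - y) ≤ 2 ^ Q := pow_le_pow_right₀ (by norm_num) (Nat.sub_le _ _)
      have h5 : (1 : ℝ) ≤ 2 ^ Q := one_le_pow₀ (by norm_num)
      have h6 : (2 : ℝ) ^ Q * 2 ^ Q ≤ Real.exp (2 * Q) := by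
        have e1 : (2 : ℝ) ≤ Real.exp 1 := by
          have := Real.add_one_le_exp (1 : ℝ)
          linarith
        have e2 : (2 : ℝ) ^ Q ≤ Real.exp Q := by
          calc (2 : ℝ) ^ Q ≤ (Real.exp 1) ^ Q := pow_le_pow_left₀ (by norm_num) e1 _
            _ = Real.exp Q := by rw [← Real.exp_nat_mul, mul_one]
        calc (2 : ℝ) ^ Q * 2 ^ Q ≤ Real.exp Q * Real.exp Q :=
              mul_le_mul e2 e2 (by positivity) (Real.exp_pos _).le
          _ = Real.exp (2 * Q) := by rw [← Real.exp_add]; ring_nf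
      have h7 : (2 * (k : ℝ) + 5) ≤ 2 ^ Q := by
        have h8 : Q < 2 ^ Q := Nat.lt_two_pow_self
        have h9 : 2 * k + 5 ≤ 2 ^ Q := by omega
        exact_mod_cast h9
      have h8 : ((k : ℝ) + 1) * 2 ^ (Q - y) ≤ ((k : ℝ) + 1) * 2 ^ Q := by gcongr
      push_cast
      nlinarith
    have h8 := Real.log_le_log (by positivity) h3
    rwa [Real.log_exp] at h8
  · -- cv
    intro r hr hrp y y' hy hyQ
    have hm0 : (0 : ℝ) < 2 ^ (Q - y') := by positivity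
    have hm : (2 : ℝ) ^ (Q - y) = 2 ^ (y' - y) * 2 ^ (Q - y') := by
      rw [← pow_add]
      congr 1
      omega
    have h2 := CH_pair (D := 2 ^ (y' - y) + 1) hr
      (fun ω => ⌊(P (L ω)).coeff k / 2 ^ (Q - y')⌋)
      (fun ω => (ctyk k Q ctx P y (L ω), G ω)) (fun ω ω' hω hω' e => by
        have e1 := (Prod.ext_iff.mp e).1
        have e2 := congrFun (Prod.ext_iff.mp e1).2 ⟨k, Nat.lt_succ_self k⟩
        simp only [ctyk] at e2
        have f2 := of_floor_div (by positivity) e2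
        refine floor_sub_le ?_
        rw [← sub_div, abs_div, abs_of_pos hm0, div_le_iff₀ hm0]
        push_cast
        rw [← hm]
        exact f2)
    refine h2.trans ?_
    have h5 : (1 : ℝ) ≤ 2 ^ (y' - y) := one_le_pow₀ (by norm_num)
    have h3 : 2 * ((2 ^ (y' - y) + 1 : ℕ) : ℝ) + 1 ≤ 11 * 2 ^ (y' - y) := by
      push_cast
      linarith
    have h4 := Real.log_le_log (by positivity) h3
    rw [Real.log_mul (by norm_num) (by positivity), Real.log_pow, Nat.cast_sub hy] at h4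
    have : 0 ≤ δ * Q := (CH_nonneg h0 _ _).trans D.c0G
    linarith

end

/-- **The own path is few bits given the ball.** -/
theorem npl {k : ℕ} (hk : 1 ≤ k) {h : ℝ} (hh : 0 < h) (hh1 : h ≤ 1) (ε : ℝ)
    (hε : 0 < ε) : ∃ δ : ℝ, 0 < δ ∧ ∃ c₀ : ℝ, 0 < c₀ ∧ ∀ K A : ℕ, ∃ Q₀ : ℕ, ∀ Q ≥ Q₀,
    ∀ (Ω Λ Γ 𝒞 𝒱 : Type) [Fintype Ω] (p : Ω → ℝ) (L : Ω → Λ) (t : Ω → ℤ) (G : Ω → Γ)
      (ctx : Λ → 𝒞) (P : Λ → Polynomial ℝ) (g : 𝒞 → ℤ → ℝ) (Vd : Ω → 𝒱) (M : ℕ) (F : ℝ),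
      Npk k K A h δ c₀ Q p L t G ctx P g Vd M F →
      CH p (fun ω => (ctx (L ω), fun j : Fin (k + 1) => ⌊(P (L ω)).coeff j⌋)) G ≤ ε * Q := by
  obtain ⟨δ, hδ, c₀, hc₀, H0⟩ := npath hk hh hh1 ε hε
  refine ⟨δ / 2, by positivity, c₀, hc₀, fun K A => ?_⟩
  obtain ⟨Q₁, H⟩ := H0 (jc k K) A
  obtain ⟨Q₂, hQ₂⟩ := exists_nat_ge
    ((Real.log (2 * (k + 2) + 1) + Real.log 11 +
      (k + 1) * Real.log (2 * (jc k K + 1) + 1)) / (δ / 2))
  refine ⟨max (2 * k + 5) (max Q₁ Q₂), ?_⟩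
  intro Q hQ Ω Λ Γ 𝒞 𝒱 _ p L t G ctx P g Vd M F D
  have q0 : 2 * k + 5 ≤ Q := (le_max_left _ _).trans hQ
  have q1 : Q₁ ≤ Q := (le_max_left _ _).trans ((le_max_right _ _).trans hQ)
  have q2 : Q₂ ≤ Q := (le_max_right _ _).trans ((le_max_right _ _).trans hQ)
  have h1 : δ / 2 * Q + Real.log (2 * (k + 2) + 1) + Real.log 11 +
      (k + 1) * Real.log (2 * (jc k K + 1) + 1) ≤ δ * Q := by
    have h2 : (Real.log (2 * (k + 2) + 1) + Real.log 11 +
      (k + 1) * Real.log (2 * (jc k K + 1) + 1)) / (δ / 2) ≤ Q :=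
      hQ₂.trans (by exact_mod_cast q2)
    rw [div_le_iff₀ (by positivity)] at h2
    linarith
  have h3 := H Q q1 Ω Λ Γ _ 𝒱 p L t G _ _ _ Vd M F (D.npd h1 q0)
  have e : (fun ω => ctyk k Q ctx P Q (L ω)) =
      fun ω => (ctx (L ω), fun j : Fin (k + 1) => ⌊(P (L ω)).coeff j⌋) := by
    funext ω
    unfold ctyk
    simp only [Nat.sub_self, pow_zero, div_one]
  simp only [e] at h3
  exact h3

end Pool.HOPK
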