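import Pool.Agent.H71.HOPK.Hop
import Pool.Agent.H68.OWN.Npt

/-!
# The own path of a nonfull coordinate, jets of any order

`npath` of `H68/OWN/Npt` for every `k ≥ 1`.
-/

set_option autoImplicit false

namespace Pool.HOPK

open Finset Real
open Pool.Agent.H49.Ent Pool.Agent.H32.Dense Pool.STK Pool.NFD Pool.OWN68

/-- **One block.** -/
theorem npd_step {k K A : ℕ} (hk : 1 ≤ k) {h δ c₀ : ℝ} {Q : ℕ} {Ω Λ Γ 𝒞 𝒱 : Type}
    [Fintype Ω] {p : Ω → ℝ} {L : Ω → Λ} {t : Ω → ℤ} {G : Ω → Γ} {C : ℕ → Λ → 𝒞} {c : Λ → ℝ}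
    {n : Λ → ℤ → ℤ} {Vd : Ω → 𝒱} {M : ℕ} {F : ℝ} (D : Npd k K A h δ c₀ Q p L t G C c n Vd M F)
    (hh1 : h ≤ 1) (hδ : 0 ≤ δ) (hc₀ : 0 < c₀) {y y' : ℕ} (hy : y ≤ y') (hyQ : y' ≤ Q)
    {R η E : ℝ} {N : ℕ} (hR : 1 ≤ R) (hη : 0 < η) (hE0 : 0 ≤ E)
    (hE : CH p (fun ω => C y (L ω)) G ≤ E)
    (hbig : ((1 + η) * ((1 - h) * (((Q : ℝ) - y) * Real.log 2) + δ * Q) +
      (R * c₀ * (1 + η) / η + R / (1 + η) ^ N) * (2 * Q) + Real.log (N + 1) +
      R * (δ * Q + E + Real.log 2) + R * (δ * Q)) + R * (3 * (δ * Q) + Real.log 2) +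
      (k - 1 : ℕ) * (R * (δ * Q) + Real.log (2 * (1 + Real.log (2 * M + 1)))) +
      Real.log ((7 + 128 * K) * (1 + Real.log (2 * M + 1)) ^ 2) < ((Q : ℝ) - y') * Real.log 2) :
    CH p (fun ω => C y' (L ω)) G ≤ E + (Real.log 2 + Real.log 5 +
      2 / R * (((y' : ℝ) - y) * Real.log 2 + δ * Q)) + δ * Q := by
  have h0 := D.law.nonneg
  have hM : 1 ≤ M := le_trans Nat.one_le_two_pow D.M1
  have hQ0 : (0 : ℝ) ≤ Q := Nat.cast_nonneg Q
  have hδQ : 0 ≤ δ * Q := mul_nonneg hδ hQ0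
  have hln : 0 < Real.log 2 := Real.log_pos (by norm_num)
  have hyy : (y : ℝ) ≤ y' := by exact_mod_cast hy
  have hyQ' : (y' : ℝ) ≤ Q := by exact_mod_cast hyQ
  have hlogm : Real.log ((2 : ℝ) ^ (Q - y')) = ((Q : ℝ) - y') * Real.log 2 := by
    rw [Real.log_pow, Nat.cast_sub hyQ]
  have hm : ((2 : ℝ) ^ (Q - y')) ≤ M := by
    have h1 : (2 : ℕ) ^ (Q - y') ≤ 2 ^ Q := Nat.pow_le_pow_right (by norm_num) (Nat.sub_le _ _)
    exact_mod_cast h1.trans D.M1
  have a1 : F - (δ * Q + E) ≤ CH p Vd (fun ω => (C y (L ω), G ω)) := by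
    have b1 := CH_le_add h0 Vd (fun ω => C y (L ω)) G
    have b2 := D.vfull
    linarith
  have a2 : CH p (fun ω => (n (L ω) (t ω), (t ω, C y (L ω)))) (fun ω => (C y (L ω), G ω)) ≤
      δ * Q := by
    refine le_trans ?_ D.nG
    have b1 : CH p (fun ω => (n (L ω) (t ω), (t ω, C y (L ω)))) (fun ω => (C y (L ω), G ω)) =
        CH p (fun ω => (n (L ω) (t ω), t ω)) (fun ω => (C y (L ω), G ω)) := by
      refine CH_congr h0 ?_ ?_ (fun _ _ _ _ e => e) (fun _ _ _ _ e => e)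
      · intro ω ω' _ _ e
        simp only [Prod.mk.injEq] at e ⊢
        exact ⟨e.1.1, e.1.2.1⟩
      · intro ω ω' _ _ e
        simp only [Prod.mk.injEq] at e ⊢
        exact ⟨e.1.1, e.1.2, e.2.1⟩
    rw [b1]
    exact CH_mono_cond h0 fun _ _ _ _ e => (Prod.ext_iff.mp e).2
  have key := Pool.HOPK.hop_one D.law hk hM L t (fun ω => (C y (L ω), G ω)) (C y) c n Vd
    (m₀ := 2 ^ (Q - y')) (R := R) (e := δ * Q) (V := ((y' : ℝ) - y) * Real.log 2 + δ * Q)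
    (by positivity) hm hR hδQ D.tM
    (fun ω ω' hω hω' e => ⟨(Prod.ext_iff.mp e).1,
      D.rel y (hy.trans hyQ) ω ω' hω hω' (Prod.ext_iff.mp e).2 (Prod.ext_iff.mp e).1⟩)
    D.tfull (F := F) (eV := δ * Q + E) (eX := δ * Q) (by linarith) D.vF a1 a2
    (c₀ := c₀) (η := η) (U₀ := (1 - h) * (((Q : ℝ) - y) * Real.log 2) + δ * Q) (V₀ := 2 * Q)
    (N := N) hc₀ hη (by
      have : 0 ≤ (1 - h) * (((Q : ℝ) - y) * Real.log 2) :=
        mul_nonneg (by linarith) (mul_nonneg (by linarith) hln.le)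
      linarith) (by linarith)
    (fun E' hE' => D.nf E' hE' y (hy.trans hyQ)) (fun r hr hrp => D.nv r hr hrp y (hy.trans hyQ))
    (by rw [hlogm]; exact hbig)
    (add_nonneg (mul_nonneg (by linarith) hln.le) hδQ)
    (fun q hq hqp => D.cv q hq hqp y y' hy hyQ)
  have c1 := CH_le_add h0 (fun ω => C y' (L ω)) (fun ω => C y (L ω)) G
  have c2 := CH_le_add h0 (fun ω => C y' (L ω)) (fun ω => ⌊c (L ω) / 2 ^ (Q - y')⌋)
    (fun ω => (C y (L ω), G ω))
  have c3 := D.up y y' hy hyQ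
  linarith

/-- **The induction step.** -/
theorem npc_step {k : ℕ} (hk : 1 ≤ k) {h θ : ℝ} (hh : 0 < h) (hh1 : h ≤ 1)
    (hθ : 0 < θ) {lev lev' : ℕ → ℕ} (H : Npc k h lev)
    (hlev : ∀ Q, lev Q ≤ lev' Q ∧ lev' Q ≤ Q ∧ ((lev' Q : ℝ) - lev Q) ≤ h / 8 * (Q - lev Q) ∧
      θ * Q ≤ (Q : ℝ) - lev Q) : Npc k h lev' := by
  intro ε hε
  have hln : 0 < Real.log 2 := Real.log_pos (by norm_num)
  have hln1 : Real.log 2 ≤ 1 := by
    have := Real.log_two_lt_d9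
    linarith
  have hln2 : (1 : ℝ) / 2 ≤ Real.log 2 := by
    have := Real.log_two_gt_d9
    linarith
  -- the constants
  obtain ⟨R, hRe⟩ : ∃ R : ℝ, R = max 1 (8 / ε) := ⟨_, rfl⟩
  have hR1 : 1 ≤ R := by rw [hRe]; exact le_max_left _ _
  have hR2 : 8 / ε ≤ R := by rw [hRe]; exact le_max_right _ _
  have hR0 : 0 < R := by linarith
  have hRε : 2 / R ≤ ε / 4 := by
    rw [div_le_iff₀ hR0]
    rw [div_le_iff₀ hε] at hR2
    linarith
  obtain ⟨η, hη⟩ : ∃ η : ℝ, η = h / 4 := ⟨_, rfl⟩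
  have hη0 : 0 < η := by rw [hη]; positivity
  have hη1 : η ≤ 1 := by rw [hη]; linarith
  obtain ⟨s, hs⟩ : ∃ s : ℝ, s = h * θ / 4 := ⟨_, rfl⟩
  have hs0 : 0 < s := by rw [hs]; positivity
  obtain ⟨N, hN⟩ : ∃ N : ℕ, 32 * R / s ≤ (1 + η) ^ N := by
    obtain ⟨N, hN⟩ := pow_unbounded_of_one_lt (32 * R / s) (by linarith : (1 : ℝ) < 1 + η)
    exact ⟨N, hN.le⟩
  have hpN : 0 < (1 + η) ^ N := by positivity
  have hN' : R / (1 + η) ^ N * 2 ≤ s / 16 := by
    rw [div_le_iff₀ hs0] at hN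
    rw [div_mul_eq_mul_div, div_le_iff₀ hpN]
    nlinarith
  obtain ⟨ε', hε'⟩ : ∃ ε' : ℝ, ε' = min (ε / 4) (s / (16 * R)) := ⟨_, rfl⟩
  have hε'0 : 0 < ε' := by rw [hε']; positivity
  have hε'1 : ε' ≤ ε / 4 := by rw [hε']; exact min_le_left _ _
  have hε'2 : R * ε' ≤ s / 16 := by
    have h1 : ε' ≤ s / (16 * R) := by rw [hε']; exact min_le_right _ _
    calc R * ε' ≤ R * (s / (16 * R)) := by gcongr
      _ = s / 16 := by field_simp
  obtain ⟨δ₁, hδ₁, c₁, hc₁, H0⟩ := H ε' hε'0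
  obtain ⟨δ, hδ⟩ : ∃ δ : ℝ, δ = min δ₁ (min (min (ε / 8) (1 / 4)) (s / (16 * (2 + (5 + k) * R)))) :=
    ⟨_, rfl⟩
  have hδ0 : 0 < δ := by rw [hδ]; positivity
  have hδ1 : δ ≤ δ₁ := by rw [hδ]; exact min_le_left _ _
  have hδ2 : δ ≤ ε / 8 := by
    rw [hδ]; exact (min_le_right _ _).trans ((min_le_left _ _).trans (min_le_left _ _))
  have hδ3 : δ ≤ 1 / 4 := by
    rw [hδ]; exact (min_le_right _ _).trans ((min_le_left _ _).trans (min_le_right _ _))
  have hδ4 : (2 + (5 + k) * R) * δ ≤ s / 16 := by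
    have h1 : δ ≤ s / (16 * (2 + (5 + k) * R)) := by
      rw [hδ]; exact (min_le_right _ _).trans (min_le_right _ _)
    calc (2 + (5 + k) * R) * δ ≤ (2 + (5 + k) * R) * (s / (16 * (2 + (5 + k) * R))) := by gcongr
      _ = s / 16 := by field_simp
  obtain ⟨c₀, hc₀⟩ : ∃ c₀ : ℝ, c₀ = min c₁ (s * η / (32 * R * (1 + η))) := ⟨_, rfl⟩
  have hc₀0 : 0 < c₀ := by rw [hc₀]; positivity
  have hc₀1 : c₀ ≤ c₁ := by rw [hc₀]; exact min_le_left _ _
  have hc₀2 : R * c₀ * (1 + η) / η * 2 ≤ s / 16 := by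
    have h1 : c₀ ≤ s * η / (32 * R * (1 + η)) := by rw [hc₀]; exact min_le_right _ _
    calc R * c₀ * (1 + η) / η * 2 ≤ R * (s * η / (32 * R * (1 + η))) * (1 + η) / η * 2 := by
          gcongr
      _ = s / 16 := by field_simp; norm_num
  refine ⟨δ, hδ0, c₀, hc₀0, fun K A => ?_⟩
  obtain ⟨Q₁, H1⟩ := H0 K A
  obtain ⟨Q₂, hQ₂⟩ := exists_nat_ge ((Real.log (N + 1) + 2 * R * Real.log 2) / (s / 16))
  obtain ⟨Q₃, hQ₃⟩ := log_small (A := (A : ℝ) + 1) (c := s / (64 * (k + 1))) (by positivity)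
    (by positivity)
  obtain ⟨Q₅, hQ₅⟩ := exists_nat_ge ((Real.log (7 + 128 * K) + (k - 1 : ℕ) * Real.log 2) / (s / 64))
  obtain ⟨Q₄, hQ₄⟩ := exists_nat_ge ((Real.log 2 + Real.log 5) / (ε / 8))
  refine ⟨max Q₅ (max 1 (max (max Q₁ Q₂) (max Q₃ Q₄))), ?_⟩
  intro Q hQ' Ω Λ Γ 𝒞 𝒱 _ p L t G C c n Vd M F D
  have q5 : Q₅ ≤ Q := (le_max_left _ _).trans hQ'
  have hQ := (le_max_right _ _).trans hQ'
  have q0 : 1 ≤ Q := (le_max_left _ _).trans hQ
  have q0' := (le_max_right _ _).trans hQ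
  have q1 : Q₁ ≤ Q := (le_max_left _ _).trans ((le_max_left _ _).trans q0')
  have q2 : Q₂ ≤ Q := (le_max_right _ _).trans ((le_max_left _ _).trans q0')
  have q3 : Q₃ ≤ Q := (le_max_left _ _).trans ((le_max_right _ _).trans q0')
  have q4 : Q₄ ≤ Q := (le_max_right _ _).trans ((le_max_right _ _).trans q0')
  have hQr : (1 : ℝ) ≤ Q := by exact_mod_cast q0
  have hQ0 : (0 : ℝ) < Q := by linarith
  have hE := H1 Q q1 Ω Λ Γ 𝒞 𝒱 p L t G C c n Vd M F (D.mono hδ1 hc₀1)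
  obtain ⟨l1, l2, l3, l4⟩ := hlev Q
  have r2 : Real.log (N + 1) + 2 * R * Real.log 2 ≤ s / 16 * Q := by
    have h1 : (Real.log (N + 1) + 2 * R * Real.log 2) / (s / 16) ≤ Q :=
      hQ₂.trans (by exact_mod_cast q2)
    rw [div_le_iff₀ (by positivity)] at h1
    linarith
  have hM1 : (1 : ℝ) ≤ M := by
    have := le_trans Nat.one_le_two_pow D.M1
    exact_mod_cast this
  have hlM : 0 ≤ Real.log (2 * M + 1) := Real.log_nonneg (by linarith)
  have hk1 : ((k - 1 : ℕ) : ℝ) = (k : ℝ) - 1 := by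
    rw [Nat.cast_sub hk, Nat.cast_one]
  have hk0 : (1 : ℝ) ≤ k := by exact_mod_cast hk
  have r6 : Real.log (1 + Real.log (2 * M + 1)) ≤ s / (64 * (k + 1)) * Q := by
    refine le_trans ?_ (hQ₃ Q q3)
    refine Real.log_le_log (by positivity) ?_
    have h1 : (2 * (M : ℝ) + 1) ≤ Real.exp (2 + A * Q) := by
      have h2 : (M : ℝ) ≤ 2 ^ (A * Q) := by exact_mod_cast D.M2
      have h3 : (2 : ℝ) ^ (A * Q) ≤ Real.exp (A * Q) := by
        have e1 : (2 : ℝ) ≤ Real.exp 1 := by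
          have := Real.add_one_le_exp (1 : ℝ)
          linarith
        calc (2 : ℝ) ^ (A * Q) ≤ (Real.exp 1) ^ (A * Q) := pow_le_pow_left₀ (by norm_num) e1 _
          _ = Real.exp (A * Q) := by
            rw [← Real.exp_nat_mul]
            congr 1
            push_cast
            ring
      have h4 : (3 : ℝ) ≤ Real.exp 2 := by
        have := Real.add_one_le_exp (2 : ℝ)
        linarith
      rw [Real.exp_add]
      have h5 : 0 < Real.exp (A * (Q : ℝ)) := Real.exp_pos _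
      have h6 : (M : ℝ) ≤ Real.exp (A * Q) := h2.trans h3
      nlinarith
    have h7 : Real.log (2 * M + 1) ≤ 2 + A * Q := by
      have := Real.log_le_log (by linarith) h1
      rwa [Real.log_exp] at this
    have h8 : (0 : ℝ) ≤ A := Nat.cast_nonneg A
    nlinarith [mul_nonneg h8 hQ0.le]
  have r5 : Real.log (7 + 128 * K) + ((k : ℝ) - 1) * Real.log 2 ≤ s / 64 * Q := by
    have h1 : (Real.log (7 + 128 * K) + (k - 1 : ℕ) * Real.log 2) / (s / 64) ≤ Q :=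
      hQ₅.trans (by exact_mod_cast q5)
    rw [div_le_iff₀ (by positivity), hk1] at h1
    linarith
  have r3 : (k - 1 : ℕ) * Real.log (2 * (1 + Real.log (2 * M + 1))) +
      Real.log ((7 + 128 * K) * (1 + Real.log (2 * M + 1)) ^ 2) ≤ s / 16 * Q := by
    rw [hk1, Real.log_mul (by norm_num) (by positivity), Real.log_mul (by positivity)
      (by positivity), Real.log_pow]
    have h1 : ((k : ℝ) + 1) * Real.log (1 + Real.log (2 * M + 1)) ≤
        ((k : ℝ) + 1) * (s / (64 * (k + 1)) * Q) :=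
      mul_le_mul_of_nonneg_left r6 (by positivity)
    have h2 : ((k : ℝ) + 1) * (s / (64 * (k + 1)) * Q) = s / 64 * Q := by
      field_simp
    rw [h2] at h1
    have h3 : 0 ≤ s * Q := by positivity
    push_cast
    linarith
  have key := npd_step hk D hh1 hδ0.le hc₀0 l1 l2 (R := R) (η := η) (E := ε' * Q) (N := N) hR1 hη0
    (by positivity) hE (by
      have b1 : (1 + η) * ((1 - h) * (((Q : ℝ) - lev Q) * Real.log 2)) ≤
          (1 - 3 * h / 4) * (((Q : ℝ) - lev Q) * Real.log 2) := by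
        have h1 : 0 ≤ ((Q : ℝ) - lev Q) * Real.log 2 := by
          have : 0 ≤ θ * Q := by positivity
          exact mul_nonneg (by linarith) hln.le
        have h2 : (1 + η) * (1 - h) ≤ 1 - 3 * h / 4 := by
          rw [hη]
          nlinarith
        calc (1 + η) * ((1 - h) * (((Q : ℝ) - lev Q) * Real.log 2)) =
            ((1 + η) * (1 - h)) * (((Q : ℝ) - lev Q) * Real.log 2) := by ring
          _ ≤ _ := mul_le_mul_of_nonneg_right h2 h1
      have b2 : (1 - h / 8) * (((Q : ℝ) - lev Q) * Real.log 2) ≤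
          ((Q : ℝ) - lev' Q) * Real.log 2 := by
        have h1 : (1 - h / 8) * ((Q : ℝ) - lev Q) ≤ (Q : ℝ) - lev' Q := by linarith
        calc (1 - h / 8) * (((Q : ℝ) - lev Q) * Real.log 2) =
            ((1 - h / 8) * ((Q : ℝ) - lev Q)) * Real.log 2 := by ring
          _ ≤ _ := mul_le_mul_of_nonneg_right h1 hln.le
      have b3 : 5 * h / 8 * (θ * Q * (1 / 2)) ≤
          5 * h / 8 * (((Q : ℝ) - lev Q) * Real.log 2) := by
        refine mul_le_mul_of_nonneg_left ?_ (by positivity)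
        exact mul_le_mul l4 hln2 (by norm_num) (le_trans (by positivity) l4)
      have b4 : (1 + η) * (δ * Q) + (5 + k) * R * (δ * Q) ≤ s / 16 * Q := by
        have h1 : (1 + η) * δ + (5 + k) * R * δ ≤ s / 16 := by
          have h2 : (1 + η) * δ ≤ 2 * δ :=
            mul_le_mul_of_nonneg_right (by linarith only [hη1]) hδ0.le
          calc (1 + η) * δ + (5 + k) * R * δ ≤ 2 * δ + (5 + k) * R * δ := by linarith only [h2]
            _ = (2 + (5 + k) * R) * δ := by ring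
            _ ≤ s / 16 := hδ4
        calc (1 + η) * (δ * Q) + (5 + k) * R * (δ * Q) = ((1 + η) * δ + (5 + k) * R * δ) * Q := by
              ring
          _ ≤ s / 16 * Q := mul_le_mul_of_nonneg_right h1 hQ0.le
      have b5 : (R * c₀ * (1 + η) / η + R / (1 + η) ^ N) * (2 * Q) ≤ (s / 16 + s / 16) * Q := by
        calc (R * c₀ * (1 + η) / η + R / (1 + η) ^ N) * (2 * Q) =
            (R * c₀ * (1 + η) / η * 2 + R / (1 + η) ^ N * 2) * Q := by ring
          _ ≤ (s / 16 + s / 16) * Q := mul_le_mul_of_nonneg_right (by linarith) hQ0.le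
      have b6 : R * (ε' * Q) ≤ s / 16 * Q := by
        calc R * (ε' * Q) = (R * ε') * Q := by ring
          _ ≤ s / 16 * Q := mul_le_mul_of_nonneg_right hε'2 hQ0.le
      have b7 : s * Q < 5 * h / 8 * (θ * Q * (1 / 2)) := by
        rw [hs]
        have : 0 < h * θ * Q := by positivity
        linarith
      have b8 : 0 < s * Q := by positivity
      have e1 : (1 + η) * ((1 - h) * (((Q : ℝ) - lev Q) * Real.log 2) + δ * Q) =
          (1 + η) * ((1 - h) * (((Q : ℝ) - lev Q) * Real.log 2)) + (1 + η) * (δ * Q) := by ring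
      have e2 : R * (δ * Q + ε' * Q + Real.log 2) =
          R * (δ * Q) + R * (ε' * Q) + R * Real.log 2 := by ring
      have e3 : R * (3 * (δ * Q) + Real.log 2) = 3 * (R * (δ * Q)) + R * Real.log 2 := by ring
      have e4 : (5 + (k : ℝ)) * R * (δ * Q) = 5 * (R * (δ * Q)) + k * (R * (δ * Q)) := by ring
      have e8' : (k - 1 : ℕ) * (R * (δ * Q) + Real.log (2 * (1 + Real.log (2 * (M : ℝ) + 1)))) =
          k * (R * (δ * Q)) - R * (δ * Q) +
            (k - 1 : ℕ) * Real.log (2 * (1 + Real.log (2 * (M : ℝ) + 1))) := by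
        rw [mul_add, hk1]
        ring
      have e9 : 0 ≤ R * (δ * Q) := by positivity
      have e5 : 2 * R * Real.log 2 = 2 * (R * Real.log 2) := by ring
      have e6 : (1 - 3 * h / 4) * (((Q : ℝ) - lev Q) * Real.log 2) +
          5 * h / 8 * (((Q : ℝ) - lev Q) * Real.log 2) =
          (1 - h / 8) * (((Q : ℝ) - lev Q) * Real.log 2) := by ring
      rw [e1, e2, e3, e8']
      rw [e4] at b4
      rw [e5] at r2
      have e7 : (s / 16 + s / 16) * (Q : ℝ) = s * Q / 8 := by ring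
      have e8 : s / 16 * (Q : ℝ) = s * Q / 16 := by ring
      rw [e7] at b5
      rw [e8] at b4 b6 r2 r3
      linarith only [b1, b2, b3, b4, b5, b6, b7, b8, r2, r3, e6, e9])
  refine key.trans ?_
  have c1 : ((lev' Q : ℝ) - lev Q) ≤ Q := by
    have h1 : (lev' Q : ℝ) ≤ Q := by exact_mod_cast l2
    have h2 : (0 : ℝ) ≤ lev Q := Nat.cast_nonneg _
    linarith
  have c2 : (0 : ℝ) ≤ (lev' Q : ℝ) - lev Q := by
    have : (lev Q : ℝ) ≤ lev' Q := by exact_mod_cast l1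
    linarith
  have c3 : 2 / R * (((lev' Q : ℝ) - lev Q) * Real.log 2 + δ * Q) ≤ ε / 4 * (Q + 1 / 4 * Q) := by
    have h1 : ((lev' Q : ℝ) - lev Q) * Real.log 2 + δ * Q ≤ Q + 1 / 4 * Q := by
      have h2 : ((lev' Q : ℝ) - lev Q) * Real.log 2 ≤ Q * 1 :=
        mul_le_mul c1 hln1 hln.le hQ0.le
      have h3 : δ * Q ≤ 1 / 4 * Q := mul_le_mul_of_nonneg_right hδ3 hQ0.le
      linarith
    exact mul_le_mul hRε h1 (by positivity) (by positivity)
  have c4 : Real.log 2 + Real.log 5 ≤ ε / 8 * Q := by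
    have h1 : (Real.log 2 + Real.log 5) / (ε / 8) ≤ Q := hQ₄.trans (by exact_mod_cast q4)
    rw [div_le_iff₀ (by positivity)] at h1
    linarith
  have c5 : ε' * Q ≤ ε / 4 * Q := mul_le_mul_of_nonneg_right hε'1 hQ0.le
  have c6 : δ * Q ≤ ε / 8 * Q := mul_le_mul_of_nonneg_right hδ2 hQ0.le
  have c7 : 0 < ε * Q := mul_pos hε hQ0
  linarith only [c3, c4, c5, c6, c7]

theorem npc_lvl {k : ℕ} (hk : 1 ≤ k) {h : ℝ} (hh : 0 < h) (hh1 : h ≤ 1) (j : ℕ) :
    Npc k h (lvl h j) := by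
  induction j with
  | zero => exact Npc.zero k h
  | succ j ih =>
    refine npc_step hk hh hh1 (θ := (1 - h / 8) ^ j) (pow_pos (by linarith) j) ih fun Q => ?_
    obtain ⟨i1, i2, i3⟩ := lvl_facts hh hh1 j Q
    obtain ⟨k1, -, -⟩ := lvl_facts hh hh1 (j + 1) Q
    refine ⟨Nat.le_add_right _ _, k1, ?_, i2⟩
    have i0 : 0 ≤ (Q : ℝ) - Pool.OWN68.lvl h j Q := by
      have : (Pool.OWN68.lvl h j Q : ℝ) ≤ Q := by exact_mod_cast i1
      linarith
    have f1 : (⌊h / 8 * ((Q : ℝ) - Pool.OWN68.lvl h j Q)⌋₊ : ℝ) ≤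
        h / 8 * ((Q : ℝ) - Pool.OWN68.lvl h j Q) := Nat.floor_le (by positivity)
    have e : ((Pool.OWN68.lvl h (j + 1) Q : ℕ) : ℝ) = Pool.OWN68.lvl h j Q +
        (⌊h / 8 * ((Q : ℝ) - Pool.OWN68.lvl h j Q)⌋₊ : ℝ) := by
      simp only [Pool.OWN68.lvl]
      push_cast
      ring
    rw [e]
    linarith

/-- **The own path of a nonfull coordinate is few bits given the ball.** -/
theorem npath {k : ℕ} (hk : 1 ≤ k) {h : ℝ} (hh : 0 < h) (hh1 : h ≤ 1) :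
    Npc k h (fun Q => Q) := by
  intro ε hε
  have hln : 0 < Real.log 2 := Real.log_pos (by norm_num)
  have hln1 : Real.log 2 ≤ 1 := by
    have := Real.log_two_lt_d9
    linarith
  obtain ⟨j, hj⟩ := exists_pow_lt_of_lt_one (by positivity : 0 < ε / 4)
    (by linarith : 1 - h / 8 < 1)
  obtain ⟨δ₁, hδ₁, c₀, hc₀, H0⟩ := npc_lvl hk hh hh1 j (ε / 8) (by positivity)
  refine ⟨min δ₁ (ε / 8), by positivity, c₀, hc₀, fun K A => ?_⟩
  obtain ⟨Q₁, H1⟩ := H0 K A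
  obtain ⟨Q₂, hQ₂⟩ := exists_nat_ge (8 / h / (ε / 8))
  refine ⟨max 1 (max Q₁ Q₂), ?_⟩
  intro Q hQ Ω Λ Γ 𝒞 𝒱 _ p L t G C c n Vd M F D
  have q0 : 1 ≤ Q := (le_max_left _ _).trans hQ
  have q1 : Q₁ ≤ Q := (le_max_left _ _).trans ((le_max_right _ _).trans hQ)
  have q2 : Q₂ ≤ Q := (le_max_right _ _).trans ((le_max_right _ _).trans hQ)
  have hQr : (1 : ℝ) ≤ Q := by exact_mod_cast q0
  have hQ0 : (0 : ℝ) < Q := by linarith
  have hE := H1 Q q1 Ω Λ Γ 𝒞 𝒱 p L t G C c n Vd M F (D.mono (min_le_left _ _) le_rfl)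
  obtain ⟨i1, i2, i3⟩ := lvl_facts hh hh1 j Q
  have h0 := D.law.nonneg
  have c1 := CH_le_add h0 (fun ω => C Q (L ω)) (fun ω => C (Pool.OWN68.lvl h j Q) (L ω)) G
  have c2 := CH_le_add h0 (fun ω => C Q (L ω)) (fun ω => ⌊c (L ω) / 2 ^ (Q - Q)⌋)
    (fun ω => (C (Pool.OWN68.lvl h j Q) (L ω), G ω))
  have c3 := D.up _ Q i1 le_rfl
  have c4 := D.cv p D.law (fun _ h => h) _ Q i1 le_rfl
  have c5 : ((Q : ℝ) - Pool.OWN68.lvl h j Q) * Real.log 2 ≤ ε / 4 * Q + ε / 8 * Q := by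
    have d1 : 8 / h ≤ ε / 8 * Q := by
      have h1 : 8 / h / (ε / 8) ≤ Q := hQ₂.trans (by exact_mod_cast q2)
      rw [div_le_iff₀ (by positivity)] at h1
      linarith
    have d2 : (1 - h / 8) ^ j * Q ≤ ε / 4 * Q := mul_le_mul_of_nonneg_right hj.le hQ0.le
    have d3 : (Q : ℝ) - Pool.OWN68.lvl h j Q ≤ ε / 4 * Q + ε / 8 * Q := by linarith
    have d4 : 0 ≤ (Q : ℝ) - Pool.OWN68.lvl h j Q := by
      have : (Pool.OWN68.lvl h j Q : ℝ) ≤ Q := by exact_mod_cast i1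
      linarith
    nlinarith
  have c6 : min δ₁ (ε / 8) * Q ≤ ε / 8 * Q :=
    mul_le_mul_of_nonneg_right (min_le_right _ _) hQ0.le
  have c7 : 0 < ε * Q := mul_pos hε hQ0
  linarith only [c1, c2, c3, c4, c5, c6, c7, hE]

end Pool.HOPK
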