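import Pool.Agent.H68.OWN.Ni
import Pool.Agent.H71.HOPK.Ng

/-!
# The own path over a nested chain is few bits: jets of any order

`path_nst` of `H68/OWN/Ni` for every `k ≥ 1`.
-/

set_option autoImplicit false

namespace Pool.HOPK

open Finset Real MvPolynomial
open Pool.Agent.H49.Ent Pool.Agent.H32.Dense Pool.STK Pool.KA Pool.KSAT Pool.K2S Pool.PB Pool.GEN
open Pool.S6C Pool.RCD Pool.LA91
open Pool.OWN68 hiding path_rel path_nst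
open Pool.GRD (LbP)
open Pool.UNJ (ceI Tub)

variable {m J : ℕ}

/-- **The own path over a nested chain.** -/
theorem path_nst {k : ℕ} (hk : 1 ≤ k) {h : ℝ} (hh : 0 < h) (hh1 : h ≤ 1) {ε : ℝ}
    (hε : 0 < ε) : ∃ δ : ℝ, 0 < δ ∧ ∀ {m : ℕ} {S : PCl m} {C₀ : ℝ} (_ : TmC S C₀)
    {c : ℕ → Fin m} {r₀ r : ℕ} (_ : r₀ ≤ r) {w a q lam e₁ : ℝ} {rd p n : ℕ → ℝ}
    (_ : 0 ≤ w) (_ : w ≤ a) (_ : a ≤ 1) (_ : 0 < q) (_ : w + q ≤ 1) (_ : 0 ≤ lam)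
    (_ : ∀ i, r₀ ≤ i → i ≤ r → 0 ≤ rd i)
    {U₀ : Type} {Qu : Qt m U₀} {α γ : ∀ J : ℕ, Fam m J → Type}
    {f : ∀ (J : ℕ) (F : Fam m J), F.Ω → α J F} {y : ∀ (J : ℕ) (F : Fam m J), F.Ω → γ J F}
    (_ : ∀ (J : ℕ) (F : Fam m J), ∃ φ : α J F → PtT F, ∀ ω, ptr F J ω = φ (f J F ω))
    (_ : Kn ((range r₀).image c) (w + lam) lam y) (_ : 0 < e₁),
    JetV S f (vg a) y Qu c r₀ r w p n e₁ (δ * q / 2) →
    JetN S f (vg a) y Qu ((range r).image c) (c r) k w (p r) q e₁ (δ * q) →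
    NfC S c r₀ r w q h (δ * q / 2) (w + lam) rd p n →
    ∃ e₀ : ℝ, 0 < e₀ ∧ ∀ e : ℝ, 0 < e → e ≤ e₀ → ∀ K K₀ : ℕ,
      Bas S (fun J F A => ∀ (V : Type) (z : PtT F → V) (z' : LnT F → V)
        (g : V → ℕ → MvPolynomial (Option (Fin m)) ℝ), LbC F c r₀ (r + 1) K e w rd p A z z' g →
        ∀ u₀ : F.Ω → U₀, Qu.P K₀ e J F A u₀ →
        ∃ (V₁ : Type) (z₁ : F.Ω → V₁), Cl2 (f J F) (vg a J F) A z₁ ∧
          CH (Pool.Agent.H49.Ent.cond F.p A True)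
            (fun ω => ((z' (vg w J F ω), (vg w J F ω).2),
              (ctxN F c r₀ r ⌊w * J⌋₊ ⌊(w + lam) * J⌋₊ K z' g n (vg w J F ω),
              fun j : Fin (K + 3) => ⌊jr F ⌊w * J⌋₊ (2 ^ ((p r + q) * J)) (c r) z'
                (fun v => g v r) j (vg w J F ω)⌋)))
            (fun ω => (u₀ ω, (z₁ ω, y J F ω))) ≤ ε * q * J) := by
  classical
  obtain ⟨δ, hδ, H⟩ := path_rel hk hh hh1 hε
  refine ⟨δ, hδ, ?_⟩
  intro m S C₀ htm c r₀ r hr w a q lam e₁ rd p n hw0 hwa ha hq hwq hlam hrd U₀ Qu α γ f y hf hy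
    he₁ hV hN hnf
  obtain ⟨e₀, he₀, hnf⟩ := hnf
  refine ⟨min e₁ e₀, lt_min he₁ he₀, fun e he hle K K₀ => ?_⟩
  have h1e : e ≤ e₁ := hle.trans (min_le_left _ _)
  have h2e : e ≤ e₀ := hle.trans (min_le_right _ _)
  have hδq : 0 < δ * q := by positivity
  obtain ⟨η, hη, hNF⟩ := hN K
  have hyT : ∀ (J : ℕ) (F : Fam m J), ∃ φ : γ J F → ℕ, ∀ ω, F.T ω = φ (y J F ω) := by
    intro J F
    obtain ⟨φ, hφ⟩ := hy J F
    exact ⟨fun x => (φ x).1, fun ω => (congrArg Prod.fst (hφ ω)).symm⟩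
  have hVe : JetV S f (vg a) y Qu c r₀ r w p n e (δ * q / 2) := fun K => by
    obtain ⟨η, h1, h2⟩ := hV K
    exact ⟨η, h1, fun l a b j hj => (h2 l a b j hj).mono h1e le_rfl⟩
  have key := H htm (I := (range r).image c) (κ := c r) (w := w) (a := a) (p := p r) (q := q)
    (r := rd r) hw0 hwa ha hq hwq (hrd r hr le_rfl) (Qu := Qu) hf hyT he (K := K) (η := η)
    (fun J F A V C z z' G cc => ∃ g : V → ℕ → MvPolynomial (Option (Fin m)) ℝ,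
      LbC F c r₀ (r + 1) K e w rd p A z z' g ∧ G = (fun v => g v r) ∧
      ∃ (φ : C → (Fin m → ℤ × ℤ) × (ℕ → ℕ → ℤ)) (ψ : (Fin m → ℤ × ℤ) × (ℕ → ℕ → ℤ) → C),
        (∀ x, ctxN F c r₀ r ⌊w * J⌋₊ ⌊(w + lam) * J⌋₊ K z' g n x = φ (cc x)) ∧
        ∀ x, cc x = ψ (ctxN F c r₀ r ⌊w * J⌋₊ ⌊(w + lam) * J⌋₊ K z' g n x))
    (by
      rintro J F A V C z z' G cc ⟨g, hlb, rfl, -⟩
      exact hlb r hr (Nat.lt_succ_self r))
    (by
      rintro J F A B V C z z' G cc hBA ⟨g, hlb, hG, hcc⟩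
      exact ⟨g, hlb.sub hBA, hG, hcc⟩) ?_ ?_ hη (fun j hj => (hNF j hj).mono h1e le_rfl) K₀
  · refine Bas.mono 0 key ?_
    intro J _ F A h1 V z z' g hlb u₀ hu₀
    exact h1 V _ z z' (fun v => g v r)
      (fun x => ctxN F c r₀ r ⌊w * J⌋₊ ⌊(w + lam) * J⌋₊ K z' g n x)
      ⟨g, hlb, rfl, fun x => x, fun x => x, fun _ => rfl, fun _ => rfl⟩ u₀ hu₀
  · -- the context
    intro K₁
    refine Bas.mono 0 ((ctxN_few htm hw0 hwa ha hlam he (fun i a b => hrd i a b.le) hy hVe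
      (show δ * q / 2 < δ * q by linarith) K K₁ (r + 1) (by omega)).and
      (Pool.GRW.tmc_bas htm one_pos)) ?_
    rintro J - F A ⟨h1, hA, -⟩ V C z z' G cc ⟨g, hlb, hG, φ, ψ, hφ, hψ⟩ u₀ hu₀
    obtain ⟨V₁, z₁, hz₁, h2⟩ := h1 V z z' g hlb u₀ hu₀
    refine ⟨V₁, z₁, hz₁, le_trans (CH_mono_left (isLaw_cond F.isLaw hA).nonneg
      fun ω ω' _ _ e => ?_) h2⟩
    show cc (vg w J F ω) = cc (vg w J F ω')
    rw [hψ, hψ]
    exact congrArg ψ (Prod.ext_iff.mp e).1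
  · -- the rows
    intro x hx0 hxq
    have l7 : 0 ≤ Real.log 7 := Real.log_nonneg (by norm_num)
    have lK : 0 ≤ Real.log (4 * ((K : ℝ) + 3) + 3) := Real.log_nonneg (by
      have : (0 : ℝ) ≤ K := Nat.cast_nonneg K
      linarith)
    obtain ⟨J₂, hJ₂⟩ := exists_nat_ge ((m * Real.log 7 + r * Real.log (4 * (K + 3) + 3)) /
      (δ * q / 2))
    refine Bas.mono J₂ ((hnf e he h2e K x hx0 hxq).and (Pool.GRW.tmc_bas htm one_pos)) ?_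
    rintro J hJ F A ⟨h1, hA, -⟩ V C z z' G cc ⟨g, hlb, rfl, φ, ψ, hφ, hψ⟩
    have hJ2 : (J₂ : ℝ) ≤ J := by exact_mod_cast hJ
    have f1 : m * Real.log 7 + r * Real.log (4 * (K + 3) + 3) ≤ δ * q / 2 * J := by
      have := hJ₂.trans hJ2
      rw [div_le_iff₀ (by positivity)] at this
      linarith
    have h2 := h1 V z z' g hlb
    obtain ⟨q', hq'⟩ : ∃ q' : F.Ω → ℝ, q' = Pool.Agent.H49.Ent.cond F.p A True := ⟨_, rfl⟩
    have hq'l : IsLaw q' := by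
      rw [hq']
      exact isLaw_cond F.isLaw hA
    have h0 := hq'l.nonneg
    rw [← hq'] at h2 ⊢
    have hWJ : ⌊w * J⌋₊ ≤ J := floor_le (hwa.trans ha) J
    obtain ⟨Hn, hHn⟩ : ∃ Hn : F.Ω → ℤ, Hn = fun ω => ⌊(2 : ℝ) ^ ((p r + q) * J) *
      hgt F (c r) z' ⌊w * J⌋₊ (fun v => g v r) ω⌋ := ⟨_, rfl⟩
    obtain ⟨Rx, hRx⟩ : ∃ Rx : F.Ω → ℤ, Rx = fun ω => ⌊(2 : ℝ) ^ ((p r + x) * J) *
      hgt F (c r) z' ⌊w * J⌋₊ (fun v => g v r) ω⌋ := ⟨_, rfl⟩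
    obtain ⟨Y, hY⟩ : ∃ Y : F.Ω → ℤ × (V × (C × (ℕ × F.ζ))), Y = fun ω =>
      (Rx ω, (z' (slam F ⌊w * J⌋₊ ω), (cc (slam F ⌊w * J⌋₊ ω), F.W ω))) := ⟨_, rfl⟩
    obtain ⟨ht, hht⟩ : ∃ ht : F.Ω → ℕ → ℤ, ht = fun ω => hts F c r₀ r z' ⌊w * J⌋₊ g n ω :=
      ⟨_, rfl⟩
    obtain ⟨B, hB⟩ : ∃ B : F.Ω → Fin m → ℤ, B = bI ((range r₀).image c) (w + lam) J F := ⟨_, rfl⟩
    have s1 := CH_le_add h0 Hn (fun ω => (ht ω, B ω)) Y
    have s2 := CH_subadd h0 ht B Y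
    have s3 : CH q' ht Y ≤ r * Real.log (4 * (K + 3) + 3) := by
      rw [hht]
      refine hts_few hWJ (fun l a b v => (hlb l a (by omega)).deg v) hq'l Y
        (fun ω => φ (cc (slam F ⌊w * J⌋₊ ω))) (Un := ⌊(w + lam) * J⌋₊)
        (fun ω => (hφ _).symm) fun ω ω' e => ?_
      rw [hY] at e
      simp only [Prod.mk.injEq] at e
      obtain ⟨-, -, e3, e4⟩ := e
      exact ⟨(Prod.ext_iff.mp e4).1, congrArg φ e3⟩
    have s4 : CH q' B Y ≤ m * Real.log 7 := by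
      rw [hB]
      refine le_trans (CH_mono_cond h0 fun ω ω' _ _ e => ?_)
        (cV0_pos hq'l ((range r₀).image c) hWJ ⌊(w + lam) * J⌋₊)
      rw [hY] at e
      simp only [Prod.mk.injEq] at e ⊢
      obtain ⟨-, -, e3, e4⟩ := e
      have e5 := hφ (slam F ⌊w * J⌋₊ ω)
      have e6 := hφ (slam F ⌊w * J⌋₊ ω')
      rw [e3, ← e6] at e5
      exact ⟨congrArg Prod.fst e5, e4⟩
    have s5 : CH q' Hn (fun ω => ((ht ω, B ω), Y ω)) ≤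
        ((1 - h) * (q - x) * Real.log 2 + δ * q / 2) * J := by
      refine le_trans (CH_mono_cond h0 fun ω ω' _ _ e => ?_) (hHn ▸ h2)
      rw [hY] at e
      simp only [Prod.mk.injEq] at e ⊢
      obtain ⟨⟨e1, e2⟩, e3, e4, e5, e6⟩ := e
      rw [hRx] at e3
      rw [hht] at e1
      rw [hB] at e2
      exact ⟨e3, e4, e1, e2, e6⟩
    have s6 : CH q' Hn Y ≤ ((1 - h) * (q - x) * Real.log 2 + δ * q) * J := by
      have e7 : ((1 - h) * (q - x) * Real.log 2 + δ * q) * J =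
        ((1 - h) * (q - x) * Real.log 2 + δ * q / 2) * J + δ * q / 2 * J := by ring
      rw [e7]
      linarith
    rw [hHn, hY, hRx] at s6
    exact s6

end Pool.HOPK
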