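import Pool.Agent.H54.OWN.Pcx
import Pool.Agent.H71.HOPK.Ng

/-!
# The own path of a nonfull coordinate, contexts which depend on the event: jets of any order

`path_ctx` of `H54/OWN/Pcx` for every `k ≥ 1`, from `path_rel`.
-/

set_option autoImplicit false

namespace Pool.HOPK

open Finset Real MvPolynomial
open Pool.Agent.H49.Ent Pool.Agent.H32.Dense Pool.STK Pool.KA Pool.KSAT Pool.K2S Pool.PB Pool.GEN
open Pool.S6C Pool.RCD Pool.LA91
open Pool.OWN68 hiding NfC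
open Pool.OWN54 (NfC)
open Pool.GRD (LbP)

/-- The trivial quantity. -/
def qTriv (m : ℕ) : Qt m Unit where
  P := fun _ _ _ _ _ _ => True
  sub := fun _ h => h
  mono := fun _ _ h => h

theorem F1.of_F0 {m : ℕ} {S : PCl m} {U U' : Type} {α β γ : ∀ J : ℕ, Fam m J → Type}
    {f : ∀ (J : ℕ) (F : Fam m J), F.Ω → α J F} {g : ∀ (J : ℕ) (F : Fam m J), F.Ω → β J F}
    {y : ∀ (J : ℕ) (F : Fam m J), F.Ω → γ J F} {Q : Qt m U} {Q' : Qt m U'} {C₀ e η : ℝ}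
    (htm : TmC S C₀) (h : F0 S f g y Q' e η) : F1 S f g y Q Q' e η := by
  intro K
  refine Bas.mono 0 ((h K).and (Pool.GRW.tmc_bas htm one_pos)) ?_
  rintro J - F A ⟨h1, hA, -⟩ u u' _ hu'
  obtain ⟨V, z, hz, h2⟩ := h1 u' hu'
  refine ⟨V, z, hz, le_trans (CH_mono_cond (isLaw_cond F.isLaw hA).nonneg
    fun ω ω' _ _ e => (Prod.ext_iff.mp e).2) h2⟩

/-- **The own path of a nonfull coordinate is few bits given the ball.** -/
theorem path_ctx {k : ℕ} (hk : 1 ≤ k) {h : ℝ} (hh : 0 < h) (hh1 : h ≤ 1) {ε : ℝ}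
    (hε : 0 < ε) : ∃ δ : ℝ, 0 < δ ∧ ∀ {m : ℕ} {S : PCl m} {C₀ : ℝ} (_ : TmC S C₀)
    {I : Finset (Fin m)} {κ : Fin m} {w a p q r : ℝ} (_ : 0 ≤ w) (_ : w ≤ a) (_ : a ≤ 1)
    (_ : 0 < q) (_ : w + q ≤ 1) (_ : 0 ≤ r)
    {α γ : ∀ J : ℕ, Fam m J → Type} {f : ∀ (J : ℕ) (F : Fam m J), F.Ω → α J F}
    {y : ∀ (J : ℕ) (F : Fam m J), F.Ω → γ J F}
    (_ : ∀ (J : ℕ) (F : Fam m J), ∃ φ : α J F → PtT F, ∀ ω, ptr F J ω = φ (f J F ω))
    (_ : ∀ (J : ℕ) (F : Fam m J), ∃ φ : γ J F → ℕ, ∀ ω, F.T ω = φ (y J F ω))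
    (Ψ : ∀ (J : ℕ) (F : Fam m J), (F.Ω → Prop) → ∀ C : Type, (LnT F → C) → Prop)
    (_ : ∀ (J : ℕ) (F : Fam m J) (A B : F.Ω → Prop) (C : Type) (c : LnT F → C), Sub B A →
      Ψ J F A C c → Ψ J F B C c),
    Bas S (fun J F A => ∀ (C : Type) (c : LnT F → C), Ψ J F A C c →
      ∃ (V : Type) (z : F.Ω → V), Cl2 (f J F) (vg a J F) A z ∧
      CH (Pool.Agent.H49.Ent.cond F.p A True) (fun ω => c (vg w J F ω))
        (fun ω => (z ω, y J F ω)) ≤ δ * q * J) →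
    NfC S I κ w p q r h (δ * q) Ψ →
    JetH S f (vg a) y I κ k w p q (δ * q) →
    ∃ e₀ : ℝ, 0 < e₀ ∧ ∀ e : ℝ, 0 < e → e ≤ e₀ → ∀ K : ℕ,
      Bas S (fun J F A => ∀ (V : Type) (z : PtT F → V) (z' : LnT F → V)
        (G : V → MvPolynomial (Option (Fin m)) ℝ),
        LbOK F I κ K ⌊e * J⌋₊ J ⌊w * J⌋₊ ⌊(r + e) * J⌋₊ ⌊(p - e) * J⌋₊ A z z' G →
        ∀ (C : Type) (c : LnT F → C), Ψ J F A C c →
        ∃ (V₁ : Type) (z₁ : F.Ω → V₁), Cl2 (f J F) (vg a J F) A z₁ ∧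
          CH (Pool.Agent.H49.Ent.cond F.p A True)
            (fun ω => ((z' (vg w J F ω), (vg w J F ω).2), (c (vg w J F ω),
              fun j : Fin (K + 3) => ⌊jr F ⌊w * J⌋₊ (2 ^ ((p + q) * J)) κ z' G j (vg w J F ω)⌋)))
            (fun ω => (z₁ ω, y J F ω)) ≤ ε * q * J) := by
  classical
  obtain ⟨δ₁, hδ₁, H⟩ := path_rel hk hh hh1 hε
  obtain ⟨δ, hδ⟩ : ∃ δ : ℝ, δ = δ₁ / 4 := ⟨_, rfl⟩
  have hδ0 : 0 < δ := by
    rw [hδ]
    positivity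
  refine ⟨δ, hδ0, ?_⟩
  intro m S C₀ htm I κ w a p q r hw0 hwa ha hq hwq hr α γ f y hf hy Ψ hΨ hc hnf hjet
  have hw1 : w < 1 := by linarith
  have hδq : 0 < δ * q := by positivity
  have hδq1 : δ * q ≤ δ₁ * q := by
    rw [hδ]
    have : 0 < δ₁ * q := by positivity
    linarith
  have hδq3 : 3 * (δ * q) ≤ δ₁ * q := by
    rw [hδ]
    have : 0 < δ₁ * q := by positivity
    linarith
  obtain ⟨j₀, η, ej, hej, hη, hsη, hj1, hj2⟩ := hjet
  obtain ⟨en, hen, hnf⟩ := hnf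
  obtain ⟨ek, hek, hjk⟩ := few0_jet htm (I := I) (k := κ) (j := k) (w := w) (p := p)
    (N := p - k * w) hw0 hw1 (by linarith) f (vg a) y (δ * q) (by positivity)
  refine ⟨min ej (min en ek), lt_min hej (lt_min hen hek), ?_⟩
  intro e he hle K
  have he1 : e ≤ ej := hle.trans (min_le_left _ _)
  have he2 : e ≤ en := hle.trans ((min_le_right _ _).trans (min_le_left _ _))
  have he3 : e ≤ ek := hle.trans ((min_le_right _ _).trans (min_le_right _ _))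
  obtain ⟨er, her⟩ : ∃ er : ℕ → ℝ, er = fun j => if j = k then δ * q else if j < j₀ then η j
    else δ * q / ((K + 2 : ℕ) + 1) := ⟨_, rfl⟩
  have hser : ∑ j ∈ range (K + 3), er j ≤ δ₁ * q := by
    rw [her]
    exact (sum_er (D := K + 2) hη hδq.le hsη).trans hδq3
  have hF : ∀ j < K + 3, F1 S f (vg a) y (qTriv m) (qJet m I κ j w p
      (if j = k then p - k * w else p + q - j * w)) e (er j) := by
    intro j _
    refine F1.of_F0 htm ?_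
    rw [her]
    dsimp only
    by_cases h1 : j = k
    · rw [if_pos h1, if_pos h1, h1]
      exact F0.mono (e := ek) hjk he3 le_rfl
    · rw [if_neg h1, if_neg h1]
      by_cases h2 : j < j₀
      · rw [if_pos h2]
        exact (hj1 j h2 h1).mono he1 le_rfl
      · rw [if_neg h2]
        exact (hj2 j (by omega) h1 (δ * q / ((K + 2 : ℕ) + 1)) (by positivity)).mono he1 le_rfl
  have key := H htm (I := I) (κ := κ) (w := w) (a := a) (p := p) (q := q) (r := r) hw0 hwa ha hq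
    hwq hr (Qu := qTriv m) (f := f) (y := y) hf hy he (K := K) (η := er)
    (fun J F A V C z z' G c => LbOK F I κ K ⌊e * J⌋₊ J ⌊w * J⌋₊ ⌊(r + e) * J⌋₊ ⌊(p - e) * J⌋₊
      A z z' G ∧ Ψ J F A C c)
    (fun J F A V C z z' G c h1 => h1.1)
    (fun J F A B V C z z' G c hBA h1 => ⟨h1.1.sub hBA, hΨ J F A B C c hBA h1.2⟩)
    (fun K₀ => by
      refine Bas.mono 0 (hc.and (Pool.GRW.tmc_bas htm one_pos)) ?_
      rintro J - F A ⟨h1, hA, -⟩ V C z z' G c ⟨-, h3⟩ u₀ _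
      obtain ⟨V₁, z₁, hz₁, h2⟩ := h1 C c h3
      refine ⟨V₁, z₁, hz₁, (CH_mono_cond (isLaw_cond F.isLaw hA).nonneg
        fun ω ω' _ _ e => (Prod.ext_iff.mp e).2).trans (h2.trans ?_)⟩
      exact mul_le_mul_of_nonneg_right hδq1 (Nat.cast_nonneg J))
    (fun x hx0 hxq => by
      refine Bas.mono 0 (hnf e he he2 K x hx0 hxq) ?_
      rintro J - F A h1 V C z z' G c ⟨h3, h4⟩
      refine (h1 V z z' G h3 C c h4).trans (mul_le_mul_of_nonneg_right ?_ (Nat.cast_nonneg J))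
      linarith) hser hF 0
  refine Bas.mono 0 (key.and (Pool.GRW.tmc_bas htm one_pos)) ?_
  rintro J - F A ⟨h1, hA, -⟩ V z z' G hlb C c hcΨ
  obtain ⟨V₁, z₁, hz₁, h2⟩ := h1 V C z z' G c ⟨hlb, hcΨ⟩ (fun _ => ()) trivial
  refine ⟨V₁, z₁, hz₁, (CH_mono_cond (isLaw_cond F.isLaw hA).nonneg
    fun ω ω' _ _ e => ?_).trans h2⟩
  simp only [Prod.mk.injEq] at e ⊢
  exact ⟨trivial, e⟩

end Pool.HOPK
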