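import Pool.Agent.H71.HOPK.Npl
import Pool.Agent.H68.OWN.Pl

/-!
# The path law, jets of any order

`path_law` of `H68/OWN/Pl` for every `k ≥ 1`: if the jets of order different from `k` are few bits,
the context is few bits and the rows of the height are not full given the context and the time, on all
large events, then the path is few bits.
-/

set_option autoImplicit false

namespace Pool.HOPK

open Finset Real MvPolynomial
open Pool.Agent.H49.Ent Pool.Agent.H32.Dense Pool.STK Pool.KA Pool.KSAT Pool.K2S Pool.PB Pool.GEN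
open Pool.S6C Pool.LA91 Pool.OWN68

variable {m J : ℕ}

/-- The part of degree `≤ k`. -/
noncomputable def lowp (k : ℕ) (f : Polynomial ℝ) : Polynomial ℝ :=
  ∑ j ∈ range (k + 1), Polynomial.C (f.coeff j) * Polynomial.X ^ j

theorem lowp_coeff (k : ℕ) (f : Polynomial ℝ) (n : ℕ) :
    (lowp k f).coeff n = if n ≤ k then f.coeff n else 0 := by
  unfold lowp
  rw [Polynomial.finsetSum_coeff]
  simp only [Polynomial.coeff_C_mul, Polynomial.coeff_X_pow, mul_ite, mul_one, mul_zero]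
  rw [Finset.sum_ite_eq (range (k + 1)) n]
  simp only [Finset.mem_range, Nat.lt_succ_iff]

theorem lowp_deg (k : ℕ) (f : Polynomial ℝ) : (lowp k f).natDegree ≤ k := by
  rw [Polynomial.natDegree_le_iff_coeff_eq_zero]
  intro n hn
  rw [lowp_coeff, if_neg (by omega)]

theorem lowp_eval (k : ℕ) (f : Polynomial ℝ) (u : ℝ) :
    (lowp k f).eval u = ∑ j ∈ range (k + 1), f.coeff j * u ^ j := by
  unfold lowp
  rw [Polynomial.eval_finsetSum]
  refine Finset.sum_congr rfl fun j _ => ?_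
  rw [Polynomial.eval_mul, Polynomial.eval_C, Polynomial.eval_pow, Polynomial.eval_X]

/-- The Taylor coefficients and the jets. -/
theorem taylor_le_der (f : Polynomial ℝ) (u : ℝ) (j : ℕ) :
    |(Polynomial.taylor u f).coeff j| ≤ |(Polynomial.derivative^[j] f).eval u| := by
  have h1 : (Polynomial.derivative^[j] f).eval u =
      (Nat.factorial j : ℝ) * (Polynomial.taylor u f).coeff j := by
    rw [Polynomial.taylor_coeff, ← Polynomial.factorial_smul_hasseDeriv]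
    simp [nsmul_eq_mul]
  rw [h1, abs_mul, Nat.abs_cast]
  have h2 : (1 : ℝ) ≤ (Nat.factorial j : ℝ) := by
    exact_mod_cast Nat.succ_le_of_lt (Nat.factorial_pos j)
  nlinarith [abs_nonneg ((Polynomial.taylor u f).coeff j)]

section

variable {F : Fam m J} {R : LnT F → Polynomial ℝ} {w : ℕ}

/-- The path is near the exact height. -/
theorem ppthk_near {k D : ℕ} (hkD : k ≤ D)
    (hdeg : ∀ x, (R x).natDegree ≤ D) {𝒞 : Type} (c : LnT F → 𝒞) (x : LnT F)
    {M : ℕ} (hM : 1 ≤ M) {τ : ℤ} (hτ : |τ| ≤ (M : ℤ)) :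
    |(R x).eval ((τ : ℝ) / M) - pthk M (pctx F R k D c) (fun x => lowp k (R x)) (jg M D) x τ| ≤
      D + 1 := by
  have hu := unit_le hM hτ
  set u : ℝ := (τ : ℝ) / M with hu'
  set a : ℕ → ℝ := fun j => if k < j then (⌊pr F R j x⌋ : ℝ) else pr F R j x
    with ha
  have h1 := near_sum (D := D) (hdeg x) hu a (fun j => by
    rw [ha]
    dsimp only
    split_ifs
    · exact fl_one _
    · unfold pr
      rw [sub_self, abs_zero]
      exact zero_le_one)
  have h2 : pthk M (pctx F R k D c) (fun x => lowp k (R x)) (jg M D) x τ =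
      ∑ j ∈ range (D + 1), a j * u ^ j := by
    unfold pthk jg pctx
    simp only
    rw [← hu', lowp_eval]
    have e1 : ∑ j : Fin (D + 1), (((if k < (j : ℕ) then ⌊pr F R j x⌋ else 0 : ℤ)) : ℝ) *
        u ^ (j : ℕ) = ∑ j ∈ range (D + 1),
        (if k < j then (⌊pr F R j x⌋ : ℝ) * u ^ j else 0) := by
      rw [← Fin.sum_univ_eq_sum_range (fun j =>
        (if k < j then (⌊pr F R j x⌋ : ℝ) * u ^ j else 0))]
      refine Finset.sum_congr rfl fun j _ => ?_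
      split_ifs <;> simp
    rw [e1]
    have e2 : ∑ j ∈ range (k + 1), (R x).coeff j * u ^ j = ∑ j ∈ range (D + 1),
        (if k < j then 0 else pr F R j x * u ^ j) := by
      have e3 : ∑ j ∈ range (D + 1), (if k < j then 0 else pr F R j x * u ^ j) =
          ∑ j ∈ range (k + 1), (if k < j then 0 else pr F R j x * u ^ j) := by
        symm
        refine Finset.sum_subset (fun j hj => ?_) (fun j _ hj => ?_)
        · rw [Finset.mem_range] at hj ⊢
          omega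
        · rw [Finset.mem_range] at hj
          rw [if_pos (by omega)]
      rw [e3]
      refine Finset.sum_congr rfl fun j hj => ?_
      rw [Finset.mem_range] at hj
      rw [if_neg (by omega)]
      rfl
    rw [e2, ← Finset.sum_add_distrib]
    refine Finset.sum_congr rfl fun j _ => ?_
    rw [ha]
    dsimp only
    split_ifs <;> ring
  rw [h2]
  exact h1

end

/-- The constant of the record. -/
def rc (D : ℕ) : ℕ := (D + 1) * 2 ^ D + 2 * D + 4

/-- **The data `Npk` of the own path.** -/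
theorem pnpk (D : ℕ) {k A' : ℕ} (hkD : k ≤ D)
    {m J : ℕ} {F : Fam m J} {R : LnT F → Polynomial ℝ} {w Q : ℕ} {q : F.Ω → ℝ} (hq : IsLaw q)
    (hdeg : ∀ x, (R x).natDegree ≤ D) (hwQ : w + Q ≤ J)
    (hM2 : J - w ≤ A' * Q) {𝒞 Γ : Type} (c : LnT F → 𝒞) (Gm : F.Ω → Γ)
    {h δ c₀ : ℝ}
    (hG : ∀ ω ω', 0 < q ω → 0 < q ω' → Gm ω = Gm ω' → F.T ω = F.T ω' ∧
      |pj F R w 0 ω - pj F R w 0 ω'| ≤ 1 ∧ ∀ j < k, |pj F R w j ω - pj F R w j ω'| ≤ 1)
    (htf : Real.log (2 * ((2 ^ (J - w) : ℕ) : ℝ) + 1) - δ * Q ≤ CH q (tw F w) (slam F w))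
    (hδ : 0 ≤ δ)
    (hc0 : CH q (fun ω => ctyk k Q (pctx F R k D c) (fun x => lowp k (R x)) 0 (slam F w ω))
      Gm ≤ δ * Q)
    (hnf : ∀ E : F.Ω → Prop, c₀ ≤ Pool.Agent.H49.Ent.law q E True → ∀ y ≤ Q,
      CH (Pool.Agent.H49.Ent.cond q E True)
        (fun ω => ⌊pthk (2 ^ (J - w)) (pctx F R k D c) (fun x => lowp k (R x))
          (jg (2 ^ (J - w)) D) (slam F w ω) (tw F w ω)⌋)
        (fun ω => (⌊pthk (2 ^ (J - w)) (pctx F R k D c) (fun x => lowp k (R x))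
          (jg (2 ^ (J - w)) D) (slam F w ω) (tw F w ω) / 2 ^ (Q - y)⌋,
          (tw F w ω, pctx F R k D c (slam F w ω)))) ≤
        (1 - h) * (((Q : ℝ) - y) * Real.log 2) + δ * Q) :
    Npk k (rc D) A' h δ c₀ Q q (slam F w) (tw F w) Gm (pctx F R k D c)
      (fun x => lowp k (R x)) (jg (2 ^ (J - w)) D)
      (fun _ => ()) (2 ^ (J - w)) 0 := by
  have hw : w ≤ J := by omega
  have h0 := hq.nonneg
  have hM : 1 ≤ 2 ^ (J - w) := Nat.one_le_two_pow
  have hrc : ((rc D : ℕ) : ℝ) = ((D : ℝ) + 1) * 2 ^ D + 2 * D + 4 := by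
    unfold rc
    push_cast
    ring
  have hp0 : (0 : ℝ) ≤ ((D : ℝ) + 1) * 2 ^ D := by positivity
  have hD0 : (0 : ℝ) ≤ D := Nat.cast_nonneg D
  have hTt : ∀ ω ω', F.T ω = F.T ω' → tw F w ω = tw F w ω' := fun ω ω' e => by
    unfold tw
    rw [e]
  -- the exact height
  have hht : ∀ ω, (R (slam F w ω)).eval (uw F w ω) = pj F R w 0 ω := fun _ => rfl
  have hnr := fun ω => ppthk_near hkD hdeg c (slam F w ω) hM (tw_abs F w ω)
  refine ⟨hq, fun x => lowp_deg k _, ?_, ?_, fun ω _ => tw_abs F w ω, ?_, ?_, ?_, htf, ?_, ?_,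
    hc0, ?_⟩
  · exact Nat.pow_le_pow_right (by norm_num) (by omega)
  · exact Nat.pow_le_pow_right (by norm_num) hM2
  · intro ω ω' hω hω' e
    exact hTt _ _ (hG ω ω' hω hω' e).1
  · intro ω ω' hω hω' e
    obtain ⟨g1, g2, -⟩ := hG ω ω' hω hω' e
    have e1 := hTt _ _ g1
    have n1 := hnr ω
    have n2 := hnr ω'
    rw [← e1] at n2
    have e2 : uw F w ω' = ((tw F w ω : ℤ) : ℝ) / ((2 ^ (J - w) : ℕ) : ℝ) := by
      unfold uw
      rw [e1]
    have e3 : uw F w ω = ((tw F w ω : ℤ) : ℝ) / ((2 ^ (J - w) : ℕ) : ℝ) := rfl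
    have f1 := hht ω
    have f2 := hht ω'
    rw [e3] at f1
    rw [e2] at f2
    rw [f1] at n1
    rw [f2] at n2
    rw [hrc]
    rw [abs_le] at n1 n2 g2 ⊢
    constructor <;> linarith [n1.1, n1.2, n2.1, n2.2, g2.1, g2.2]
  · intro ω ω' hω hω' e ec j hj
    obtain ⟨g1, -, g3⟩ := hG ω ω' hω hω' e
    have g3 := g3 j hj
    have e1 := hTt _ _ g1
    have hu : uw F w ω' = uw F w ω := by
      unfold uw
      rw [e1]
    have e3 : ((tw F w ω : ℤ) : ℝ) / ((2 ^ (J - w) : ℕ) : ℝ) = uw F w ω := rfl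
    rw [e3]
    -- the difference of the paths
    obtain ⟨E, hE⟩ : ∃ E : Polynomial ℝ, E = R (slam F w ω) - R (slam F w ω') := ⟨_, rfl⟩
    obtain ⟨B, hB⟩ : ∃ B : Polynomial ℝ, B = lowp k (R (slam F w ω)) -
      lowp k (R (slam F w ω')) := ⟨_, rfl⟩
    rw [← hB]
    have hEB : (E - B).natDegree ≤ D := by
      rw [hE, hB]
      refine (Polynomial.natDegree_sub_le _ _).trans (max_le ((Polynomial.natDegree_sub_le _ _).trans
        (max_le (hdeg _) (hdeg _))) ((Polynomial.natDegree_sub_le _ _).trans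
        (max_le ((lowp_deg k _).trans hkD) ((lowp_deg k _).trans hkD))))
    have hco : ∀ i ≤ D, |(E - B).coeff i| ≤ 1 := by
      intro i hi
      rw [hE, hB, Polynomial.coeff_sub, Polynomial.coeff_sub, Polynomial.coeff_sub, lowp_coeff,
        lowp_coeff]
      by_cases hik : i ≤ k
      · rw [if_pos hik, if_pos hik, sub_self, abs_zero]
        exact zero_le_one
      · rw [if_neg hik, if_neg hik, sub_self, sub_zero]
        have h3 : ⌊pr F R i (slam F w ω)⌋ = ⌊pr F R i (slam F w ω')⌋ := by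
          unfold pctx at ec
          have e2 := congrFun (Prod.ext_iff.mp (Prod.ext_iff.mp ec).2).2
            (⟨i, by omega⟩ : Fin (D + 1))
          simp only at e2
          rw [if_pos (by omega), if_pos (by omega)] at e2
          exact e2
        have h4 := Int.floor_le (pr F R i (slam F w ω))
        have h5 := Int.lt_floor_add_one (pr F R i (slam F w ω))
        have h6 := Int.floor_le (pr F R i (slam F w ω'))
        have h7 := Int.lt_floor_add_one (pr F R i (slam F w ω'))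
        rw [h3] at h4 h5
        unfold pr at h4 h5 h6 h7
        rw [abs_le]
        constructor <;> linarith
    have t1 := taylor_bd hEB hco (uw_abs F w ω) j
    have t2 := taylor_le_der E (uw F w ω) j
    have t3 : (Polynomial.derivative^[j] E).eval (uw F w ω) =
        pj F R w j ω - pj F R w j ω' := by
      rw [hE, Polynomial.iterate_derivative_sub, Polynomial.eval_sub]
      unfold pj
      rw [hu]
    rw [t3] at t2
    have t4 : (Polynomial.taylor (uw F w ω) B).coeff j =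
        (Polynomial.taylor (uw F w ω) E).coeff j -
          (Polynomial.taylor (uw F w ω) (E - B)).coeff j := by
      rw [map_sub, Polynomial.coeff_sub]
      ring
    rw [t4, hrc]
    refine (abs_sub _ _).trans ?_
    linarith
  · intro r hr _
    exact (H_const hr.sum_one ()).le
  · have h3 : 0 ≤ CH q (fun _ : F.Ω => ()) Gm := CH_nonneg h0 _ _
    have h4 : 0 ≤ δ * Q := mul_nonneg hδ (Nat.cast_nonneg _)
    linarith
  · intro E hE y hy
    refine le_trans ?_ (hnf E hE y hy)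
    refine CH_mono_cond (cond_nonneg h0 E True) fun ω ω' _ _ e => ?_
    simp only [Prod.mk.injEq] at e ⊢
    exact ⟨e.1, e.2.2.1, e.2.2.2⟩

/-- **The context and the jets to `0` digits are few bits**, if the jets `U` are few bits. -/
theorem pc0 (D : ℕ) : ∃ C : ℝ, 1 ≤ C ∧ ∀ {k : ℕ} (hkD : k ≤ D) {m J : ℕ}
    {F : Fam m J} {R : LnT F → Polynomial ℝ} {w Q : ℕ} {q : F.Ω → ℝ} (hq : IsLaw q)
    (hdeg : ∀ x, (R x).natDegree ≤ D) (hw : w ≤ J) {𝒞 Γ 𝒰 : Type}
    (c : LnT F → 𝒞) (Gm : F.Ω → Γ) (U : F.Ω → 𝒰) {B : ℝ} (hB : 0 ≤ B)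
    (hG : ∀ ω ω', 0 < q ω → 0 < q ω' → Gm ω = Gm ω' → F.T ω = F.T ω' ∧
      (slam F w ω).2 = (slam F w ω').2)
    (hU : ∀ ω ω', 0 < q ω → 0 < q ω' → Gm ω = Gm ω' → U ω = U ω' →
      (∀ j ≤ D, j ≠ k → |pj F R w j ω -
        pj F R w j ω'| ≤ 1) ∧
      |pj F R w k ω -
        pj F R w k ω'| ≤ B * 2 ^ Q),
    CH q (fun ω => ctyk k Q (pctx F R k D c) (fun x => lowp k (R x)) 0 (slam F w ω))
      Gm ≤ CH q (fun ω => c (slam F w ω)) Gm + CH q U Gm +
        (2 * D + 4) * Real.log (C * (B + 2)) := by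
  obtain ⟨C₁, hC₁, hcof⟩ := cof_small D
  refine ⟨2 * (C₁ + 3) + 1, by linarith, ?_⟩
  intro k hkD m J F R w Q q hq hdeg hw 𝒞 Γ 𝒰 c Gm U B hB hG hU
  have h0 := hq.nonneg
  have hQ1 : (1 : ℝ) ≤ 2 ^ Q := one_le_pow₀ (by norm_num)
  set Z : F.Ω → 𝒰 × Γ := fun ω => (U ω, Gm ω) with hZ
  -- the coefficients on a fibre
  have hco : ∀ ω ω', 0 < q ω → 0 < q ω' → Z ω = Z ω' →
      (∀ j, k < j → |pr F R j (slam F w ω) - pr F R j (slam F w ω')| ≤ C₁) ∧
      ∀ j, |pr F R j (slam F w ω) - pr F R j (slam F w ω')| ≤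
        C₁ * ((B + 1) * 2 ^ Q) := by
    intro ω ω' hω hω' e
    have e1 : U ω = U ω' := (Prod.ext_iff.mp e).1
    have e2 : Gm ω = Gm ω' := (Prod.ext_iff.mp e).2
    obtain ⟨u1, u2⟩ := hU ω ω' hω hω' e2 e1
    have hT := (hG ω ω' hω hω' e2).1
    have hu : uw F w ω' = uw F w ω := by
      unfold uw tw
      rw [hT]
    have hEd : (R (slam F w ω) - R (slam F w ω')).natDegree ≤ D :=
      (Polynomial.natDegree_sub_le _ _).trans (max_le (hdeg _) (hdeg _))
    have hEv : ∀ i, (Polynomial.derivative^[i] (R (slam F w ω) -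
        R (slam F w ω'))).eval (uw F w ω) =
        pj F R w i ω -
          pj F R w i ω' := by
      intro i
      rw [Polynomial.iterate_derivative_sub, Polynomial.eval_sub]
      unfold pj
      rw [hu]
    have hbig : ∀ i, D < i → |(Polynomial.derivative^[i] (R (slam F w ω) -
        R (slam F w ω'))).eval (uw F w ω)| ≤ 0 := by
      intro i hi
      rw [Polynomial.iterate_derivative_eq_zero (by omega), Polynomial.eval_zero, abs_zero]
    have hc : ∀ j, pr F R j (slam F w ω) - pr F R j (slam F w ω') =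
        (R (slam F w ω) - R (slam F w ω')).coeff j := by
      intro j
      rw [Polynomial.coeff_sub]
      rfl
    refine ⟨fun j hj => ?_, fun j => ?_⟩
    · rw [hc, ← mul_one C₁]
      refine hcof _ j (uw F w ω) 1 hEd (uw_abs F w ω) fun i hi => ?_
      by_cases hiD : i ≤ D
      · rw [hEv]
        exact u1 i hiD (by omega)
      · exact (hbig i (by omega)).trans zero_le_one
    · rw [hc]
      refine hcof _ j (uw F w ω) _ hEd (uw_abs F w ω) fun i _ => ?_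
      by_cases hiD : i ≤ D
      · rw [hEv]
        by_cases hik : i = k
        · rw [hik]
          refine u2.trans ?_
          nlinarith
        · refine (u1 i hiD hik).trans ?_
          nlinarith
      · exact (hbig i (by omega)).trans (by positivity)
  -- the costs
  have hlog : ∀ {X : F.Ω → ℤ} {N : ℝ}, N ≤ C₁ * (B + 1) →
      (∀ ω ω', 0 < q ω → 0 < q ω' → Z ω = Z ω' → |X ω - X ω'| ≤ ((⌈N⌉₊ + 1 : ℕ) : ℤ)) →
      CH q X Z ≤ Real.log ((2 * (C₁ + 3) + 1) * (B + 2)) := by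
    intro X N hN hX
    refine (CH_pair hq X Z hX).trans (Real.log_le_log (by positivity) ?_)
    have h1 : (⌈N⌉₊ : ℝ) ≤ C₁ * (B + 1) + 1 := by
      have h2 : (⌈N⌉₊ : ℝ) ≤ (⌈C₁ * (B + 1)⌉₊ : ℝ) := by exact_mod_cast Nat.ceil_mono hN
      have h3 := Nat.ceil_lt_add_one (by positivity : 0 ≤ C₁ * (B + 1))
      linarith
    push_cast
    nlinarith
  have hfl : ∀ {a b N : ℝ}, |a - b| ≤ N → |⌊a⌋ - ⌊b⌋| ≤ ((⌈N⌉₊ + 1 : ℕ) : ℤ) := by
    intro a b N hab
    exact floor_sub_le (hab.trans (Nat.le_ceil N))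
  have hC1B : C₁ ≤ C₁ * (B + 1) := by nlinarith
  -- the parts
  have p1 : CH q (fun ω => (fun j : Fin (D + 1) => if k < (j : ℕ) then
      ⌊pr F R j (slam F w ω)⌋ else 0)) Z ≤
      (D + 1) * Real.log ((2 * (C₁ + 3) + 1) * (B + 2)) := by
    refine (CH_pis h0 _ Z).trans ?_
    have h1 : ∀ j ∈ (univ : Finset (Fin (D + 1))), CH q (fun ω => (fun j : Fin (D + 1) =>
        if k < (j : ℕ) then ⌊pr F R j (slam F w ω)⌋ else 0) j) Z ≤
        Real.log ((2 * (C₁ + 3) + 1) * (B + 2)) := by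
      intro j _
      refine hlog (N := C₁) hC1B fun ω ω' hω hω' e => ?_
      dsimp only
      split_ifs with hj
      · exact hfl ((hco ω ω' hω hω' e).1 _ hj)
      · rw [sub_self, abs_zero]
        exact Int.natCast_nonneg _
    refine (Finset.sum_le_sum h1).trans (le_of_eq ?_)
    rw [Finset.sum_const, Finset.card_univ, Fintype.card_fin, nsmul_eq_mul]
    push_cast
    ring
  have p2 : ∀ j, CH q (fun ω => ⌊pr F R j (slam F w ω) / 2 ^ Q⌋) Z ≤
      Real.log ((2 * (C₁ + 3) + 1) * (B + 2)) := by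
    intro j
    refine hlog (N := C₁ * (B + 1)) le_rfl fun ω ω' hω hω' e => hfl ?_
    have h1 := (hco ω ω' hω hω' e).2 j
    rw [← sub_div, abs_div, abs_of_pos (by positivity : (0 : ℝ) < 2 ^ Q),
      div_le_iff₀ (by positivity)]
    linarith
  have p3 : CH q (fun ω (j : Fin (k + 1)) => ⌊pr F R j (slam F w ω) / 2 ^ Q⌋) Z ≤
      (k + 1) * Real.log ((2 * (C₁ + 3) + 1) * (B + 2)) := by
    refine (CH_pis h0 _ Z).trans ?_
    have h1 : ∀ j ∈ (univ : Finset (Fin (k + 1))), CH q (fun ω => (fun j : Fin (k + 1) =>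
        ⌊pr F R j (slam F w ω) / 2 ^ Q⌋) j) Z ≤ Real.log ((2 * (C₁ + 3) + 1) * (B + 2)) :=
      fun j _ => p2 (j : ℕ)
    refine (Finset.sum_le_sum h1).trans (le_of_eq ?_)
    rw [Finset.sum_const, Finset.card_univ, Fintype.card_fin, nsmul_eq_mul]
    push_cast
    ring
  -- together
  have s1 := CH_le_add h0 (fun ω => ctyk k Q (pctx F R k D c) (fun x => lowp k (R x)) 0
    (slam F w ω)) U Gm
  have s2 : CH q (fun ω => ctyk k Q (pctx F R k D c) (fun x => lowp k (R x)) 0 (slam F w ω)) Z ≤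
      CH q (fun ω => (c (slam F w ω), ((fun j : Fin (D + 1) => if k < (j : ℕ) then
        ⌊pr F R j (slam F w ω)⌋ else 0), fun j : Fin (k + 1) =>
          ⌊pr F R j (slam F w ω) / 2 ^ Q⌋))) Z := by
    refine CH_mono_left h0 fun ω ω' hω hω' e => ?_
    have e1 := (Prod.ext_iff.mp e).1
    have e2 : Gm ω = Gm ω' := (Prod.ext_iff.mp (Prod.ext_iff.mp e).2).2
    obtain ⟨-, g3⟩ := hG ω ω' hω hω' e2
    simp only [Prod.mk.injEq] at e1
    obtain ⟨f1, f2, f3⟩ := e1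
    unfold ctyk pctx
    simp only [Nat.sub_zero, Prod.mk.injEq]
    refine ⟨⟨g3, f1, f2⟩, funext fun j => ?_⟩
    have f4 := congrFun f3 j
    rw [lowp_coeff, lowp_coeff, if_pos (by omega), if_pos (by omega)]
    exact f4
  have s3 := CH_subadd h0 (fun ω => c (slam F w ω)) (fun ω => ((fun j : Fin (D + 1) =>
    if k < (j : ℕ) then ⌊pr F R j (slam F w ω)⌋ else 0), fun j : Fin (k + 1) =>
      ⌊pr F R j (slam F w ω) / 2 ^ Q⌋)) Z
  have s4 := CH_subadd h0 (fun ω => (fun j : Fin (D + 1) =>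
    if k < (j : ℕ) then ⌊pr F R j (slam F w ω)⌋ else 0))
    (fun ω => fun j : Fin (k + 1) => ⌊pr F R j (slam F w ω) / 2 ^ Q⌋) Z
  have s7 : CH q (fun ω => c (slam F w ω)) Z ≤ CH q (fun ω => c (slam F w ω)) Gm :=
    CH_mono_cond h0 fun _ _ _ _ e => (Prod.ext_iff.mp e).2
  have l0 : 0 ≤ Real.log ((2 * (C₁ + 3) + 1) * (B + 2)) := Real.log_nonneg (by nlinarith)
  have hkr : (k : ℝ) ≤ D := by exact_mod_cast hkD
  have l1 : ((k : ℝ) + 1) * Real.log ((2 * (C₁ + 3) + 1) * (B + 2)) ≤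
      (D + 1) * Real.log ((2 * (C₁ + 3) + 1) * (B + 2)) := by gcongr
  have e9 : (2 * (D : ℝ) + 4) * Real.log ((2 * (C₁ + 3) + 1) * (B + 2)) =
      (D + 1) * Real.log ((2 * (C₁ + 3) + 1) * (B + 2)) +
        (D + 1) * Real.log ((2 * (C₁ + 3) + 1) * (B + 2)) +
        2 * Real.log ((2 * (C₁ + 3) + 1) * (B + 2)) := by ring
  rw [e9]
  linarith

/-- **The path law**: a family of polynomials on the lines. -/
theorem path_law {k : ℕ} (hk : 1 ≤ k) {h : ℝ} (hh : 0 < h) (hh1 : h ≤ 1) {ε : ℝ}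
    (hε : 0 < ε) : ∃ δ : ℝ, 0 < δ ∧ ∃ c₀ : ℝ, 0 < c₀ ∧ ∃ N₀ : ℕ, 0 < N₀ ∧
    ∀ (D : ℕ) (_ : k ≤ D) {w q : ℝ} (_ : 0 ≤ w) (_ : 0 < q) (_ : w + q ≤ 1),
    ∃ J₀ : ℕ, ∀ J ≥ J₀, ∀ {m : ℕ} (F : Fam m J) (A : F.Ω → Prop) (_ : 0 < Pe F.p A)
      (R : LnT F → Polynomial ℝ) {𝒞 Γ : Type} (c : LnT F → 𝒞) (Y : F.Ω → Γ) (er : ℕ → ℝ),
    (∀ x, (R x).natDegree ≤ D) →
    (J : ℝ) * Real.log 2 - δ * q * J ≤
      CH (Pool.Agent.H49.Ent.cond F.p A True) F.T (fun ω => (F.l ω, F.Z ω)) →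
    (∀ ω ω', A ω → A ω' → Y ω = Y ω' → F.T ω = F.T ω' ∧ F.Z ω = F.Z ω') →
    CH (Pool.Agent.H49.Ent.cond F.p A True) (fun ω => c (slam F ⌊w * J⌋₊ ω)) Y ≤ δ * q * J →
    ∑ j ∈ range (D + 1), er j ≤ δ * q →
    (∀ j ≤ D, j ≠ k → CH (Pool.Agent.H49.Ent.cond F.p A True)
      (fun ω => ⌊pj F R ⌊w * J⌋₊ j ω⌋) Y ≤ er j * J) →
    CH (Pool.Agent.H49.Ent.cond F.p A True)
      (fun ω => ⌊pj F R ⌊w * J⌋₊ k ω / 2 ^ ⌊q * J⌋₊⌋) Y ≤ er k * J →
    (∀ B : F.Ω → Prop, Sub B A → c₀ * Pe F.p A ≤ Pe F.p B → ∀ i ≤ N₀,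
      CH (Pool.Agent.H49.Ent.cond F.p B True) (fun ω => ⌊pj F R ⌊w * J⌋₊ 0 ω⌋)
        (fun ω => (⌊pj F R ⌊w * J⌋₊ 0 ω / 2 ^ ((q - q * i / N₀) * J)⌋,
          (c (slam F ⌊w * J⌋₊ ω), F.W ω))) ≤
        ((1 - h) * (q - q * i / N₀) * Real.log 2 + δ * q) * J) →
    CH (Pool.Agent.H49.Ent.cond F.p A True)
      (fun ω => (c (slam F ⌊w * J⌋₊ ω), fun j : Fin (D + 1) =>
        ⌊(R (slam F ⌊w * J⌋₊ ω)).coeff j⌋)) Y ≤ ε * q * J := by
  classical
  obtain ⟨δ₁, hδ₁, c₀, hc₀, Hnpl⟩ := npl hk hh hh1 (ε / 2) (half_pos hε)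
  obtain ⟨δ, hδ⟩ : ∃ δ : ℝ, δ = min (δ₁ / 16) (ε / 16) := ⟨_, rfl⟩
  have hδ0 : 0 < δ := by
    rw [hδ]
    exact lt_min (by positivity) (by positivity)
  have hδa : δ ≤ δ₁ / 16 := by rw [hδ]; exact min_le_left _ _
  have hδb : δ ≤ ε / 16 := by rw [hδ]; exact min_le_right _ _
  obtain ⟨N₀, hN₀⟩ := exists_nat_ge (16 / δ₁)
  have hN0 : (0 : ℝ) < N₀ := lt_of_lt_of_le (by positivity) hN₀
  refine ⟨δ, hδ0, c₀, hc₀, N₀, by exact_mod_cast hN0, ?_⟩
  intro D hkD w q hw0 hq hwq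
  have hD1 : (0 : ℝ) < D + 1 := by positivity
  obtain ⟨K₁, hK₁⟩ : ∃ K₁ : ℕ, K₁ = rc D := ⟨_, rfl⟩
  obtain ⟨C, hC, Hc⟩ := pc0 D
  obtain ⟨A', hA'⟩ := exists_nat_ge (2 / q)
  obtain ⟨Q₀, Hnpl⟩ := Hnpl K₁ A'
  have hδq : 0 < δ * q := by positivity
  -- the limits
  obtain ⟨c₅, hc₅⟩ : ∃ c₅ : ℝ, c₅ = Real.log (4 * ((D + 1 : ℕ) : ℝ) + 5) := ⟨_, rfl⟩
  obtain ⟨c₆, hc₆⟩ : ∃ c₆ : ℝ, c₆ = (2 * D + 4) * Real.log (C * (1 + 2)) := ⟨_, rfl⟩
  obtain ⟨CC, hCC⟩ : ∃ CC : ℝ, CC = δ₁ + 1 + Real.log 3 + c₆ + 2 * c₅ := ⟨_, rfl⟩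
  have l3 : 0 ≤ Real.log 3 := Real.log_nonneg (by norm_num)
  have l4 : 0 ≤ Real.log (C * (1 + 2)) := Real.log_nonneg (by linarith)
  have l5 : 0 ≤ c₅ := by
    rw [hc₅]
    refine Real.log_nonneg ?_
    have : (0 : ℝ) ≤ ((D + 1 : ℕ) : ℝ) := Nat.cast_nonneg _
    linarith
  have l6 : 0 ≤ c₆ := by
    rw [hc₆]
    positivity
  obtain ⟨J₂, hJ₂⟩ := exists_nat_ge (CC / (δ₁ / 4 * q) + (Q₀ + 2) / q)
  refine ⟨J₂, ?_⟩
  intro J hJ m F A hA R 𝒞 Γ c Y er hdeg hT hY hc hser hjet hjk hrow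
  have hJ2 : (J₂ : ℝ) ≤ J := by exact_mod_cast hJ
  have hJ0 : (0 : ℝ) ≤ J := Nat.cast_nonneg J
  have hl2 : 0 < Real.log 2 := Real.log_pos one_lt_two
  have hl21 : Real.log 2 ≤ 1 := by
    have := Real.log_two_lt_d9
    linarith
  obtain ⟨W, hW⟩ : ∃ W : ℕ, W = ⌊w * J⌋₊ := ⟨_, rfl⟩
  obtain ⟨Q, hQ⟩ : ∃ Q : ℕ, Q = ⌊q * J⌋₊ := ⟨_, rfl⟩
  have hQ1 : (Q : ℝ) ≤ q * J := by
    rw [hQ]
    exact Nat.floor_le (by positivity)
  have hQ2 : q * J < Q + 1 := by
    rw [hQ]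
    exact Nat.lt_floor_add_one _
  have hW1 : (W : ℝ) ≤ w * J := by
    rw [hW]
    exact Nat.floor_le (by positivity)
  have b1 : 0 ≤ CC / (δ₁ / 4 * q) := by
    rw [hCC]
    positivity
  have b2 : 0 < ((Q₀ : ℝ) + 2) / q := by positivity
  have f1 : CC ≤ δ₁ / 4 * (q * J) := by
    have : CC / (δ₁ / 4 * q) ≤ J := by linarith
    rw [div_le_iff₀ (by positivity)] at this
    linarith
  have f2 : (Q₀ : ℝ) + 2 ≤ q * J := by
    have : ((Q₀ : ℝ) + 2) / q ≤ J := by linarith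
    rw [div_le_iff₀ hq] at this
    linarith
  have hQ0 : Q₀ ≤ Q := by
    have : (Q₀ : ℝ) < Q := by linarith
    exact_mod_cast this.le
  have hWQ : W + Q ≤ J := by
    have h1 : ((W + Q : ℕ) : ℝ) ≤ J := by
      push_cast
      have h2 : (w + q) * J ≤ 1 * J := mul_le_mul_of_nonneg_right hwq hJ0
      linarith
    exact_mod_cast h1
  have hWJ : W ≤ J := by omega
  have hM2 : J - W ≤ A' * Q := by
    have h1 : (2 : ℝ) ≤ q * J := by
      have : (0 : ℝ) ≤ Q₀ := Nat.cast_nonneg _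
      linarith
    have h2 : (J : ℝ) ≤ A' * Q := by
      have h3 : q * J / 2 ≤ Q := by linarith
      have h4 : 2 / q * (q * J / 2) ≤ A' * Q :=
        mul_le_mul hA' h3 (by positivity) (Nat.cast_nonneg _)
      have h5 : 2 / q * (q * J / 2) = J := by field_simp
      linarith
    have h3 : J ≤ A' * Q := by exact_mod_cast h2
    omega
  have hqJ : 0 < q * J := by linarith [(Nat.cast_nonneg Q₀ : (0 : ℝ) ≤ Q₀)]
  -- the constants
  have f3 : δ₁ * (q * J) - δ₁ ≤ δ₁ * Q := by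
    have := mul_le_mul_of_nonneg_left hQ2.le hδ₁.le
    linarith only [this]
  have f4 : 0 ≤ δ₁ * (q * J) := by positivity
  have f5 : δ * q * J ≤ δ₁ / 16 * (q * J) := by
    rw [mul_assoc]
    exact mul_le_mul_of_nonneg_right hδa (by positivity)
  have fa : Real.log 3 + δ₁ ≤ δ₁ / 4 * (q * J) := by
    rw [hCC] at f1
    linarith only [f1, l6, l5]
  have fb : c₆ + δ₁ ≤ δ₁ / 4 * (q * J) := by
    rw [hCC] at f1
    linarith only [f1, l3, l5]
  have fc : 2 * c₅ + 1 + δ₁ ≤ δ₁ / 4 * (q * J) := by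
    rw [hCC] at f1
    linarith only [f1, l3, l6]
  clear f1 b1 b2 hJ₂ hCC
  obtain ⟨q', hq'⟩ : ∃ q' : F.Ω → ℝ, q' = Pool.Agent.H49.Ent.cond F.p A True := ⟨_, rfl⟩
  have hq'l : IsLaw q' := by
    rw [hq']
    exact isLaw_cond F.isLaw hA
  have h0 := hq'l.nonneg
  have hq'A : ∀ ω, 0 < q' ω → A ω := fun ω hω => by
    rw [hq'] at hω
    exact of_cond_pos hω
  rw [← hq', ← hW, ← hQ] at hjk
  rw [← hq', ← hW] at hjet hc
  rw [← hq'] at hT
  rw [← hq', ← hW]
  rw [← hW] at hrow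
  -- the jets as integers
  obtain ⟨U, hU⟩ : ∃ U : F.Ω → Fin (D + 1) → ℤ, U = fun ω (j : Fin (D + 1)) =>
    if (j : ℕ) = k then ⌊pj F R W k ω / 2 ^ Q⌋ else ⌊pj F R W (j : ℕ) ω⌋ := ⟨_, rfl⟩
  obtain ⟨Gm, hGm⟩ : ∃ Gm : F.Ω → Γ × (Fin (D + 1) → ℤ),
    Gm = fun ω => (Y ω, fun j : Fin (D + 1) => if (j : ℕ) < k then U ω j else 0) := ⟨_, rfl⟩
  have hYU : CH q' U Y ≤ δ * q * J := by
    refine (CH_pis h0 U Y).trans ?_
    have h1 : ∀ j ∈ (univ : Finset (Fin (D + 1))), CH q' (fun ω => U ω j) Y ≤ er j * J := by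
      intro j _
      rw [hU]
      by_cases hj : (j : ℕ) = k
      · simp only [if_pos hj]
        rw [hj]
        exact hjk
      · simp only [if_neg hj]
        exact hjet j (by omega) hj
    refine (Finset.sum_le_sum h1).trans ?_
    rw [← Finset.sum_mul, Fin.sum_univ_eq_sum_range er (D + 1)]
    exact mul_le_mul_of_nonneg_right hser hJ0
  have hGY : ∀ ω ω', Gm ω = Gm ω' → Y ω = Y ω' := fun ω ω' e => by
    rw [hGm] at e
    exact (Prod.ext_iff.mp e).1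
  have hGT : ∀ ω ω', 0 < q' ω → 0 < q' ω' → Gm ω = Gm ω' → F.T ω = F.T ω' ∧
      (slam F W ω).2 = (slam F W ω').2 := fun ω ω' hω hω' e => by
    obtain ⟨e1, e2⟩ := hY ω ω' (hq'A ω hω) (hq'A ω' hω') (hGY ω ω' e)
    refine ⟨e1, ?_⟩
    unfold slam Fam.T1
    simp only [Prod.mk.injEq]
    exact ⟨e2, by rw [e1]⟩
  have hfl : ∀ {a b : ℝ}, ⌊a⌋ = ⌊b⌋ → |a - b| ≤ 1 := fun {a b} e => by
    have := fl_scale (s := 1) (t := 1) (a := a) (b := b) (B := 1) zero_le_one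
      (by norm_num) one_pos (by rw [one_mul, one_mul]; exact e)
    rwa [one_mul, one_mul] at this
  have hU1 : ∀ (j : ℕ) (hj : j < D + 1), j ≠ k → ∀ ω ω', U ω ⟨j, hj⟩ = U ω' ⟨j, hj⟩ →
      |pj F R W j ω - pj F R W j ω'| ≤ 1 := by
    intro j hj hjk ω ω' e
    rw [hU] at e
    simp only [if_neg hjk] at e
    exact hfl e
  have hUk : ∀ (hj : k < D + 1) (ω ω' : F.Ω), U ω ⟨k, hj⟩ = U ω' ⟨k, hj⟩ →
      |pj F R W k ω - pj F R W k ω'| ≤ 1 * 2 ^ Q := by
    intro hj ω ω' e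
    rw [hU] at e
    simp only [if_true] at e
    rw [one_mul]
    exact of_floor_div (by positivity) e
  -- the data
  have hG : ∀ ω ω', 0 < q' ω → 0 < q' ω' → Gm ω = Gm ω' → F.T ω = F.T ω' ∧
      |pj F R W 0 ω - pj F R W 0 ω'| ≤ 1 ∧ ∀ j < k, |pj F R W j ω - pj F R W j ω'| ≤ 1 := by
    intro ω ω' hω hω' e
    have e1 : (fun j : Fin (D + 1) => if (j : ℕ) < k then U ω j else 0) =
        fun j : Fin (D + 1) => if (j : ℕ) < k then U ω' j else 0 := by
      rw [hGm] at e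
      exact (Prod.ext_iff.mp e).2
    have e2 : ∀ j < k, |pj F R W j ω - pj F R W j ω'| ≤ 1 := by
      intro j hj
      have e3 := congrFun e1 ⟨j, by omega⟩
      simp only [if_pos hj] at e3
      exact hU1 j (by omega) (by omega) ω ω' e3
    exact ⟨(hGT ω ω' hω hω' e).1, e2 0 (by omega), e2⟩
  have hc0 : CH q' (fun ω => ctyk k Q (pctx F R k D c) (fun x => lowp k (R x)) 0 (slam F W ω))
      Gm ≤ δ₁ * Q := by
    have h1 := Hc hkD (R := R) (w := W) (Q := Q) hq'l hdeg hWJ c Gm U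
      (B := 1) (by norm_num) (fun ω ω' hω hω' e => hGT ω ω' hω hω' e) (fun ω ω' _ _ _ e =>
        ⟨fun j hj hjk => hU1 j (by omega) hjk ω ω' (congrFun e _),
          hUk (by omega) ω ω' (congrFun e _)⟩)
    have h2 : CH q' (fun ω => c (slam F W ω)) Gm ≤ δ * q * J :=
      (CH_mono_cond h0 fun ω ω' _ _ e => hGY ω ω' e).trans hc
    have h3 : CH q' U Gm ≤ δ * q * J :=
      (CH_mono_cond h0 fun ω ω' _ _ e => hGY ω ω' e).trans hYU
    rw [← hc₆] at h1
    linarith only [h1, h2, h3, f5, fb, f3, f4]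
  have hnf' : ∀ E : F.Ω → Prop, c₀ ≤ Pool.Agent.H49.Ent.law q' E True → ∀ y' ≤ Q,
      CH (Pool.Agent.H49.Ent.cond q' E True)
        (fun ω => ⌊pthk (2 ^ (J - W)) (pctx F R k D c) (fun x => lowp k (R x))
          (jg (2 ^ (J - W)) D) (slam F W ω) (tw F W ω)⌋)
        (fun ω => (⌊pthk (2 ^ (J - W)) (pctx F R k D c) (fun x => lowp k (R x))
          (jg (2 ^ (J - W)) D) (slam F W ω) (tw F W ω) / 2 ^ (Q - y')⌋,
          (tw F W ω, pctx F R k D c (slam F W ω)))) ≤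
        (1 - h) * (((Q : ℝ) - y') * Real.log 2) + δ₁ * Q := by
    intro E hE y' hy'
    have hyr : (y' : ℝ) ≤ Q := by exact_mod_cast hy'
    obtain ⟨B, hB⟩ : ∃ B : F.Ω → Prop, B = fun ω => A ω ∧ E ω := ⟨_, rfl⟩
    have hBA : Sub B A := fun ω hω => by
      rw [hB] at hω
      exact hω.1
    have e1 : Pool.Agent.H49.Ent.cond q' E True = Pool.Agent.H49.Ent.cond F.p B True := by
      rw [hq', hB]
      exact Pool.K2S.Piece.cond_inter hA.ne'
    have e2 : Pool.Agent.H49.Ent.law q' E True = Pe F.p B / Pe F.p A := by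
      rw [hq', hB]
      exact Pool.K2S.Pe_cond E
    rw [e2, le_div_iff₀ hA] at hE
    have hPB : 0 < Pe F.p B := lt_of_lt_of_le (by positivity) hE
    have hBl : IsLaw (Pool.Agent.H49.Ent.cond F.p B True) := isLaw_cond F.isLaw hPB
    -- the mesh
    obtain ⟨i, hi⟩ : ∃ i : ℕ, i = ⌊(y' : ℝ) * N₀ / (q * J)⌋₊ := ⟨_, rfl⟩
    have i1 : (i : ℝ) * (q * J) ≤ y' * N₀ := by
      rw [← le_div_iff₀ hqJ, hi]
      exact Nat.floor_le (by positivity)
    have i2 : (y' : ℝ) * N₀ < (i + 1) * (q * J) := by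
      rw [← div_lt_iff₀ hqJ, hi]
      exact Nat.lt_floor_add_one _
    have i3 : i ≤ N₀ := by
      have h1 : (i : ℝ) * (q * J) ≤ N₀ * (q * J) := by
        refine i1.trans ?_
        rw [mul_comm]
        exact mul_le_mul_of_nonneg_left (hyr.trans hQ1) hN0.le
      have h2 : (i : ℝ) ≤ N₀ := le_of_mul_le_mul_right h1 hqJ
      exact_mod_cast h2
    have h1 := hrow B hBA hE i i3
    obtain ⟨x, hx⟩ : ∃ x : ℝ, x = q * i / N₀ := ⟨_, rfl⟩
    have x1 : x * J ≤ y' := by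
      rw [hx, div_mul_eq_mul_div, div_le_iff₀ hN0]
      linarith
    have x2 : y' ≤ x * J + q * J / N₀ := by
      rw [hx]
      have : q * i / N₀ * J + q * J / N₀ = ((i + 1) * (q * J)) / N₀ := by ring
      rw [this, le_div_iff₀ hN0]
      exact i2.le
    rw [← hx] at h1
    -- the change of the height
    rw [e1]
    obtain ⟨P, hP⟩ : ∃ P : F.Ω → ℝ, P = fun ω => pthk (2 ^ (J - W))
      (pctx F R k D c) (fun x => lowp k (R x)) (jg (2 ^ (J - W)) D)
      (slam F W ω) (tw F W ω) := ⟨_, rfl⟩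
    have hXP : ∀ ω, |pj F R W 0 ω - P ω| ≤ ((D + 1 : ℕ) : ℝ) := by
      intro ω
      have g1 := ppthk_near (R := R) hkD hdeg c (slam F W ω)
        (Nat.one_le_two_pow (n := J - W)) (tw_abs F W ω)
      have g3 : pj F R W 0 ω = (R (slam F W ω)).eval
        (((tw F W ω : ℤ) : ℝ) / ((2 ^ (J - W) : ℕ) : ℝ)) := rfl
      rw [← g3] at g1
      rw [hP]
      push_cast at g1 ⊢
      exact g1
    obtain ⟨t, ht⟩ : ∃ t : ℝ, t = 2 ^ (-((q - x) * J)) := ⟨_, rfl⟩
    have ht0 : 0 < t := by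
      rw [ht]
      exact Real.rpow_pos_of_pos (by norm_num) _
    have key := row_nf hBl (fun ω => pj F R W 0 ω) P
      (fun ω _ => hXP ω) (μ := 2 ^ (Q - y')) (t := t) (one_le_pow₀ (by norm_num)) ht0.le (by
        rw [ht, ← Real.rpow_natCast, ← Real.rpow_add (by norm_num)]
        refine Real.rpow_le_one_of_one_le_of_nonpos (by norm_num) ?_
        rw [Nat.cast_sub hy']
        linarith)
      (fun ω => (tw F W ω, pctx F R k D c (slam F W ω)))
      (fun ω => (c (slam F W ω), F.W ω)) (fun ω ω' _ _ e => by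
        unfold pctx at e
        simp only [Prod.mk.injEq] at e
        obtain ⟨e3, e5, e6, -⟩ := e
        have e7 : F.Z ω = F.Z ω' := (Prod.ext_iff.mp e5).1
        have e8 : F.T1 W ω = F.T1 W ω' := (Prod.ext_iff.mp e5).2
        have e9 : F.W ω = F.W ω' := Prod.ext (T_tw F W e8 e3) e7
        rw [e6, e9])
    rw [hP, ← hc₅] at key
    refine key.trans ?_
    have e3 : (fun ω => (⌊t * pj F R W 0 ω⌋, (c (slam F W ω), F.W ω))) = (fun ω =>
        (⌊pj F R W 0 ω / 2 ^ ((q - x) * J)⌋, (c (slam F W ω), F.W ω))) := by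
      funext ω
      rw [ht, Real.rpow_neg (by norm_num), div_eq_mul_inv, mul_comm]
    rw [e3]
    have g1 : (q - x) * J ≤ (Q - y') + (1 + q * J / N₀) := by linarith
    have g2 : q * J / N₀ ≤ δ₁ / 16 * (q * J) := by
      rw [div_le_iff₀ hN0]
      have a1 : 1 ≤ δ₁ / 16 * N₀ := by
        rw [div_le_iff₀ hδ₁] at hN₀
        linarith only [hN₀]
      have a2 := mul_le_mul_of_nonneg_left a1 hqJ.le
      linarith only [a2]
    have g3 : (1 - h) * (q - x) * Real.log 2 * J ≤ (1 - h) * (((Q : ℝ) - y') * Real.log 2) +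
        (1 + q * J / N₀) := by
      have g4 : (1 - h) * Real.log 2 * ((q - x) * J) ≤
          (1 - h) * Real.log 2 * ((Q - y') + (1 + q * J / N₀)) :=
        mul_le_mul_of_nonneg_left g1 (mul_nonneg (by linarith only [hh1]) hl2.le)
      have g5 : (1 - h) * Real.log 2 ≤ 1 := by
        have a1 := mul_le_mul_of_nonneg_left hl21 (by linarith only [hh1] : 0 ≤ 1 - h)
        linarith only [a1, hh]
      have g6 : 0 ≤ 1 + q * J / N₀ := by positivity
      have g7 := mul_le_mul_of_nonneg_right g5 g6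
      linarith only [g4, g7]
    linarith only [h1, g3, g2, f5, fc, f3, f4]
  have htf : Real.log (2 * ((2 ^ (J - W) : ℕ) : ℝ) + 1) - δ₁ * Q ≤
      CH q' (tw F W) (slam F W) := by
    have h1 := tw_full F hq'l hWJ (e := δ * q * J) hT
    linarith only [h1, f3, f4, f5, fa]
  have hdat := pnpk D (k := k) (A' := A') hkD (F := F) (R := R) (w := W) (Q := Q) (q := q') hq'l
    hdeg hWQ hM2 c Gm (h := h) (δ := δ₁) (c₀ := c₀) hG htf hδ₁.le hc0 hnf'
  rw [← hK₁] at hdat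
  have hfin := Hnpl Q hQ0 _ _ _ _ _ _ _ _ _ _ _ _ _ _ _ hdat
  -- the end
  have s1 := CH_le_add h0 (fun ω => (c (slam F W ω), fun j : Fin (D + 1) =>
    ⌊(R (slam F W ω)).coeff j⌋)) U Y
  have s2 : CH q' (fun ω => (c (slam F W ω), fun j : Fin (D + 1) =>
      ⌊(R (slam F W ω)).coeff j⌋)) (fun ω => (U ω, Y ω)) ≤ ε / 2 * Q := by
    refine le_trans ?_ hfin
    refine (CH_mono_cond h0 (W := Gm) fun ω ω' _ _ e => ?_).trans (CH_mono_left h0 ?_)
    · simp only [Prod.mk.injEq] at e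
      rw [hGm]
      dsimp only
      rw [e.1, e.2]
    · intro ω ω' _ _ e
      have e0 := (Prod.ext_iff.mp e).1
      unfold pctx at e0
      simp only [Prod.mk.injEq] at e0
      obtain ⟨⟨-, e3, e4⟩, e5⟩ := e0
      have e8 : ∀ j : Fin (D + 1), ⌊pr F R j (slam F W ω)⌋ = ⌊pr F R j (slam F W ω')⌋ := by
        intro j
        by_cases hj : k < (j : ℕ)
        · have := congrFun e4 j
          simp only [if_pos hj] at this
          exact this
        · have h9 := congrFun e5 ⟨(j : ℕ), by omega⟩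
          simp only [lowp_coeff] at h9
          rw [if_pos (by omega), if_pos (by omega)] at h9
          exact h9
      simp only [Prod.mk.injEq]
      exact ⟨e3, funext fun j => e8 j⟩
  have g1 : ε / 2 * Q ≤ ε / 2 * (q * J) := mul_le_mul_of_nonneg_left hQ1 (by positivity)
  have g2 : δ * q * J ≤ ε / 16 * (q * J) := by
    rw [mul_assoc]
    exact mul_le_mul_of_nonneg_right hδb (by positivity)
  have g3 : 0 ≤ ε * (q * J) := by positivity
  linarith only [s1, s2, hYU, g1, g2, g3]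

end Pool.HOPK
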